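import Mathlib

/-!
# Primitive characters mod `p ^ a` on `1 + p ^ (a - b) Z`, `2 b ≤ a`
-/

set_option autoImplicit false

open Finset

namespace Pool.H37.PP

/-- shifted sums of periodic functions -/
lemma sum_shift {n : ℕ} (f : ℕ → ℂ) (hf : ∀ v, f (v + n) = f v) (v0 : ℕ) :
    ∑ v ∈ range n, f (v + v0) = ∑ v ∈ range n, f v := by
  induction v0 with
  | zero => rfl
  | succ k ih =>
    rw [← ih]
    rcases n with _ | n
    · simp
    rw [sum_range_succ, sum_range_succ' (fun v => f (v + k)) n]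
    congr 1
    · refine sum_congr rfl fun v _ => ?_
      congr 1
      ring
    · have := hf k
      rw [show n + (k + 1) = k + (n + 1) by ring, this, zero_add]

variable {p : ℕ} [Fact p.Prime]

/-- a primitive character is not trivial on `1 + p ^ (a - 1) Z` -/
lemma exists_ne {a : ℕ} (ha : 1 ≤ a) (χ : DirichletCharacter ℂ (p ^ a)) (hχ : χ.IsPrimitive) :
    ∃ w : ℕ, IsUnit ((1 + p ^ (a - 1) * w : ℕ) : ZMod (p ^ a)) ∧
      χ ((1 + p ^ (a - 1) * w : ℕ) : ZMod (p ^ a)) ≠ 1 := by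
  have hp : p.Prime := Fact.out
  have hne : NeZero (p ^ a) := ⟨pow_ne_zero _ hp.ne_zero⟩
  by_contra hcon
  push Not at hcon
  have hdvd : p ^ (a - 1) ∣ p ^ a := pow_dvd_pow _ (Nat.sub_le _ _)
  have hfac : χ.FactorsThrough (p ^ (a - 1)) := by
    rw [DirichletCharacter.factorsThrough_iff_ker_unitsMap hdvd]
    intro u hu
    rw [MonoidHom.mem_ker] at hu ⊢
    have h1 : (ZMod.castHom hdvd (ZMod (p ^ (a - 1)))) (u : ZMod (p ^ a)) = 1 := by
      have := congrArg Units.val hu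
      simpa [ZMod.unitsMap] using this
    obtain ⟨n, hn⟩ : ∃ n : ℕ, n = (u : ZMod (p ^ a)).val := ⟨_, rfl⟩
    have hnu : ((n : ℕ) : ZMod (p ^ a)) = u := by
      rw [hn, ZMod.natCast_val, ZMod.cast_id]
    have h2 : ((n : ℕ) : ZMod (p ^ (a - 1))) = ((1 : ℕ) : ZMod (p ^ (a - 1))) := by
      rw [← hnu, map_natCast] at h1
      rw [h1, Nat.cast_one]
    rw [ZMod.natCast_eq_natCast_iff] at h2
    have hn1 : ((n + p ^ a : ℕ) : ZMod (p ^ a)) = u := by
      rw [Nat.cast_add, hnu, ZMod.natCast_self, add_zero]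
    have h3 : (n + p ^ a) ≡ 1 [MOD p ^ (a - 1)] := by
      have h4 : p ^ a ≡ 0 [MOD p ^ (a - 1)] := (Nat.modEq_zero_iff_dvd).2 hdvd
      simpa using h2.add h4
    have hpos : 1 ≤ p ^ a := Nat.pos_of_ne_zero (pow_ne_zero _ hp.ne_zero)
    have h5 : p ^ (a - 1) ∣ (n + p ^ a) - 1 := (Nat.modEq_iff_dvd' (by omega)).1 h3.symm
    obtain ⟨w, hw⟩ := h5
    have h6 : n + p ^ a = 1 + p ^ (a - 1) * w := by omega
    have h7 := hcon w (by rw [← h6, hn1]; exact u.isUnit)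
    rw [← h6, hn1] at h7
    ext
    rw [MulChar.coe_toUnitHom, h7]
    rfl
  have h8 : χ.conductor ≤ p ^ (a - 1) := Nat.sInf_le ((χ.mem_conductorSet_iff).2 hfac)
  have h9 : χ.conductor = p ^ a := hχ
  rw [h9] at h8
  have h10 : p ^ (a - 1) < p ^ a := Nat.pow_lt_pow_right hp.one_lt (by omega)
  omega

/-- the sum over `1 + p ^ (a - b) κ v` vanishes -/
lemma sum_zero {a b : ℕ} (hb : 2 * b ≤ a) (ha : 1 ≤ a) (χ : DirichletCharacter ℂ (p ^ a))
    (hχ : χ.IsPrimitive) (κ : ZMod (p ^ a)) (hκ : (p : ZMod (p ^ a)) ^ (a - b) * κ ≠ 0) :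
    ∑ v ∈ range (p ^ b), χ (1 + (p : ZMod (p ^ a)) ^ (a - b) * κ * (v : ZMod (p ^ a))) = 0 := by
  have hp : p.Prime := Fact.out
  have hne : NeZero (p ^ a) := ⟨pow_ne_zero _ hp.ne_zero⟩
  obtain ⟨π, hπ⟩ : ∃ π : ZMod (p ^ a), π = (p : ZMod (p ^ a)) ^ (a - b) := ⟨_, rfl⟩
  have hπ2 : π * π = 0 := by
    rw [hπ, ← pow_add]
    have h1 : ((p ^ a : ℕ) : ZMod (p ^ a)) = 0 := ZMod.natCast_self _
    push_cast at h1
    rw [show a - b + (a - b) = a + (a - b + (a - b) - a) by omega, pow_add, h1, zero_mul]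
  obtain ⟨f, hf⟩ : ∃ f : ℕ → ℂ, f = fun v : ℕ => χ (1 + π * κ * (v : ZMod (p ^ a))) := ⟨_, rfl⟩
  have hmul : ∀ v w, f (v + w) = f v * f w := by
    intro v w
    rw [hf]
    simp only
    rw [← map_mul]
    congr 1
    push_cast
    linear_combination (-(κ * κ * v * w)) * hπ2
  have hper : ∀ v, f (v + p ^ b) = f v := by
    intro v
    rw [hf]
    simp only
    congr 1
    have h1 : ((p ^ a : ℕ) : ZMod (p ^ a)) = 0 := ZMod.natCast_self _
    push_cast at h1 ⊢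
    have h2 : π * (p : ZMod (p ^ a)) ^ b = 0 := by
      rw [hπ, ← pow_add, show a - b + b = a by omega, h1]
    linear_combination κ * h2
  -- an index with a nontrivial value
  obtain ⟨v0, hv0⟩ : ∃ v0, f v0 ≠ 1 := by
    obtain ⟨w, -, hw⟩ := exists_ne ha χ hχ
    obtain ⟨k, hk⟩ : ∃ k : ℕ, k = κ.val := ⟨_, rfl⟩
    have hkκ : ((k : ℕ) : ZMod (p ^ a)) = κ := by
      rw [hk, ZMod.natCast_val, ZMod.cast_id]
    have hk1 : ¬ p ^ b ∣ k := by
      rintro ⟨c, hc⟩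
      apply hκ
      have h1 : ((p ^ a : ℕ) : ZMod (p ^ a)) = 0 := ZMod.natCast_self _
      push_cast at h1
      rw [← hkκ, hc]
      push_cast
      rw [← mul_assoc, ← pow_add, show a - b + b = a by omega, h1, zero_mul]
    have hk0 : k ≠ 0 := by
      rintro rfl
      exact hk1 (dvd_zero _)
    obtain ⟨j, k', hk', hkk⟩ := Nat.exists_eq_pow_mul_and_not_dvd hk0 p hp.ne_one
    have hjb : j < b := by
      by_contra h
      push Not at h
      exact hk1 (hkk ▸ (pow_dvd_pow p h).mul_right k')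
    have hu : IsUnit ((k' : ℕ) : ZMod (p ^ a)) := by
      rw [ZMod.isUnit_iff_coprime]
      exact ((Nat.Prime.coprime_iff_not_dvd hp).2 hk').symm.pow_right _
    obtain ⟨u, hu⟩ := hu
    refine ⟨p ^ (b - 1 - j) * (((u⁻¹ : (ZMod (p ^ a))ˣ) : ZMod (p ^ a)).val * w), ?_⟩
    rw [hf]
    simp only
    intro h
    apply hw
    rw [← h]
    congr 1
    push_cast
    rw [ZMod.natCast_val, ZMod.cast_id, ← hkκ, hkk, hπ]
    push_cast
    rw [← hu]
    have h3 : (p : ZMod (p ^ a)) ^ (a - 1) = (p : ZMod (p ^ a)) ^ (a - b) *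
        (p : ZMod (p ^ a)) ^ j * (p : ZMod (p ^ a)) ^ (b - 1 - j) := by
      rw [← pow_add, ← pow_add]
      congr 1
      omega
    rw [h3]
    have h4 : (u : ZMod (p ^ a)) * ((u⁻¹ : (ZMod (p ^ a))ˣ) : ZMod (p ^ a)) = 1 := u.mul_inv
    linear_combination (-((p : ZMod (p ^ a)) ^ (a - b) * (p : ZMod (p ^ a)) ^ j *
      (p : ZMod (p ^ a)) ^ (b - 1 - j) * w)) * h4
  have hS : (∑ v ∈ range (p ^ b), f v) * f v0 = ∑ v ∈ range (p ^ b), f v := by
    rw [sum_mul, ← sum_shift f hper v0]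
    exact sum_congr rfl fun v _ => (hmul v v0).symm
  have h5 : (∑ v ∈ range (p ^ b), f v) * (f v0 - 1) = 0 := by
    rw [mul_sub, hS, mul_one, sub_self]
  have h6 := (mul_eq_zero.1 h5).resolve_right (sub_ne_zero.2 hv0)
  rw [hf, hπ] at h6
  exact h6

end Pool.H37.PP
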