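import Mathlib
import Pool.Agent.H2.EL.Def
import Pool.Agent.H37.PP.Th

/-!
# Products of shifted primitive characters mod `p ^ a` along a progression of step `m p ^ (a - b)`
-/

set_option autoImplicit false

open Finset Polynomial

namespace Pool.H37.PP

open Pool.H2.EL

/-- the numerator of the logarithmic derivative of the product of the forms -/
noncomputable def gpol {r : ℕ} (A B : Fin r → ℕ) (c : Fin r → Bool) : ℤ[X] :=
  ∑ l, C ((if c l then 1 else -1) * (A l : ℤ)) *
    ∏ l' ∈ univ.erase l, (C (A l' : ℤ) * X + C (B l' : ℤ))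

theorem gpol_ne_zero {r : ℕ} (hr : 1 ≤ r) (A B : Fin r → ℕ) (c : Fin r → Bool)
    (hA : ∀ l, 1 ≤ A l) (hne : ∀ l l', l ≠ l' → A l * B l' ≠ A l' * B l) : gpol A B c ≠ 0 := by
  classical
  intro h
  obtain ⟨l0, hl0⟩ : ∃ l0 : Fin r, l0 = ⟨0, hr⟩ := ⟨_, rfl⟩
  obtain ⟨z, hz⟩ : ∃ z : ℚ, z = -(B l0 : ℚ) / A l0 := ⟨_, rfl⟩
  have hA0 : ∀ l, (A l : ℚ) ≠ 0 := fun l => by
    have := hA l
    positivity
  have hz0 : (A l0 : ℚ) * z + B l0 = 0 := by
    rw [hz]
    have := hA0 l0
    field_simp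
    ring
  have hznz : ∀ l, l ≠ l0 → (A l : ℚ) * z + B l ≠ 0 := by
    intro l hl h1
    have h2 : (A l0 : ℚ) * B l = A l * B l0 := by
      linear_combination (A l0 : ℚ) * h1 - (A l : ℚ) * hz0
    exact hne l0 l (Ne.symm hl) (by exact_mod_cast h2)
  have h1 := congrArg (eval₂ (Int.castRingHom ℚ) z) h
  unfold gpol at h1
  rw [eval₂_zero, eval₂_finsetSum, ← add_sum_erase univ _ (mem_univ l0)] at h1
  have h2 : ∑ x ∈ univ.erase l0, eval₂ (Int.castRingHom ℚ) z
      (C ((if c x then 1 else -1) * (A x : ℤ)) *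
        ∏ l' ∈ univ.erase x, (C (A l' : ℤ) * X + C (B l' : ℤ))) = 0 := by
    refine sum_eq_zero fun x hx => ?_
    rw [eval₂_mul, eval₂_finsetProd]
    have h3 : ∏ i ∈ univ.erase x, eval₂ (Int.castRingHom ℚ) z (C (A i : ℤ) * X + C (B i : ℤ)) = 0 := by
      refine prod_eq_zero (mem_erase.2 ⟨(ne_of_mem_erase hx).symm, mem_univ l0⟩) ?_
      simp [hz0]
    rw [h3, mul_zero]
  rw [h2, add_zero, eval₂_mul, eval₂_finsetProd, mul_eq_zero] at h1
  rcases h1 with h1 | h1
  · rw [eval₂_C] at h1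
    have := hA0 l0
    split_ifs at h1 <;> simp at h1 <;> exact this (by exact_mod_cast h1)
  · rw [prod_eq_zero_iff] at h1
    obtain ⟨l, hl, h3⟩ := h1
    refine hznz l (ne_of_mem_erase hl) ?_
    simpa using h3

theorem natDegree_gpol {r : ℕ} (A B : Fin r → ℕ) (c : Fin r → Bool) :
    (gpol A B c).natDegree ≤ r := by
  unfold gpol
  refine natDegree_sum_le_of_forall_le _ _ fun l _ => ?_
  refine (natDegree_C_mul_le _ _).trans ((natDegree_prod_le _ _).trans ?_)
  refine (sum_le_sum (g := fun _ => 1) fun l' _ => natDegree_linear_le).trans ?_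
  rw [sum_const, smul_eq_mul, mul_one]
  exact (card_le_univ _).trans (by rw [Fintype.card_fin])

variable {p : ℕ} [Fact p.Prime]

lemma prod_one_add {R ι : Type*} [CommRing R] (π : R) (hπ : π * π = 0) (s : Finset ι) (w : ι → R) :
    ∏ l ∈ s, (1 + π * w l) = 1 + π * ∑ l ∈ s, w l := by
  classical
  induction s using Finset.induction_on with
  | empty => simp
  | insert x s hx ih =>
    rw [prod_insert hx, sum_insert hx, ih]
    linear_combination (w x * ∑ l ∈ s, w l) * hπ

lemma cj_one_add {n : ℕ} (χ : DirichletCharacter ℂ n) (c : Bool) (x : ZMod n) (hx : x * x = 0) :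
    cj c (χ (1 + x)) = χ (1 + (if c then x else -x)) := by
  unfold cj
  cases c
  · rw [if_neg (by simp), if_neg (by simp)]
    have h1 : χ (1 + x) * χ (1 + -x) = 1 := by
      rw [← map_mul, show (1 + x) * (1 + -x) = 1 by linear_combination -hx, map_one]
    have h2 := DirichletCharacter.norm_le_one χ (1 + x)
    have h3 := DirichletCharacter.norm_le_one χ (1 + -x)
    have h4 : ‖χ (1 + x)‖ * ‖χ (1 + -x)‖ = 1 := by rw [← norm_mul, h1, norm_one]
    have h5 : ‖χ (1 + x)‖ = 1 := by nlinarith [norm_nonneg (χ (1 + x)), norm_nonneg (χ (1 + -x))]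
    rw [← Complex.inv_eq_conj h5]
    exact (eq_inv_of_mul_eq_one_right h1).symm
  · rw [if_pos rfl, if_pos rfl]

/-- the inner sum -/
theorem inner {a b m : ℕ} (hb1 : 1 ≤ b) (hb : 2 * b ≤ a) (χ : DirichletCharacter ℂ (p ^ a))
    (hχ : χ.IsPrimitive) (hm : ¬ p ∣ m) {r : ℕ} (A B : Fin r → ℕ) (c : Fin r → Bool) (t0 : ℕ) :
    ‖∑ v ∈ range (p ^ b), ∏ l, cj (c l)
      (χ ((A l * (t0 + m * p ^ (a - b) * v) + B l : ℕ) : ZMod (p ^ a)))‖ ≤
      if ((p ^ b : ℕ) : ℤ) ∣ (gpol A B c).eval (t0 : ℤ) then (p : ℝ) ^ b else 0 := by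
  classical
  have hp : p.Prime := Fact.out
  have hne : NeZero (p ^ a) := ⟨pow_ne_zero _ hp.ne_zero⟩
  have htriv : ‖∑ v ∈ range (p ^ b), ∏ l, cj (c l)
      (χ ((A l * (t0 + m * p ^ (a - b) * v) + B l : ℕ) : ZMod (p ^ a)))‖ ≤ (p : ℝ) ^ b := by
    refine (norm_sum_le _ _).trans ?_
    refine (sum_le_sum (g := fun _ => (1 : ℝ)) fun v _ => ?_).trans ?_
    · rw [norm_prod]
      refine prod_le_one (fun _ _ => norm_nonneg _) fun l _ => ?_
      rw [cj_norm]
      exact DirichletCharacter.norm_le_one χ _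
    · rw [sum_const, card_range, nsmul_eq_mul, mul_one]
      push_cast
      exact le_rfl
  split_ifs with hG
  · exact htriv
  obtain ⟨π, hπ⟩ : ∃ π : ZMod (p ^ a), π = (p : ZMod (p ^ a)) ^ (a - b) := ⟨_, rfl⟩
  have hpa : (p : ZMod (p ^ a)) ^ a = 0 := by
    have h1 : ((p ^ a : ℕ) : ZMod (p ^ a)) = 0 := ZMod.natCast_self _
    push_cast at h1
    exact h1
  have hπ2 : π * π = 0 := by
    rw [hπ, ← pow_add, show a - b + (a - b) = a + (a - b + (a - b) - a) by omega, pow_add, hpa,
      zero_mul]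
  refine le_of_eq ?_
  rw [norm_eq_zero]
  by_cases hunit : ∀ l, IsUnit (((A l * t0 + B l : ℕ) : ZMod (p ^ a)))
  · choose y hy using fun l => hunit l
    obtain ⟨w, hw⟩ : ∃ w : Fin r → ZMod (p ^ a), w = fun l =>
      (if c l then 1 else -1) * ((m : ZMod (p ^ a)) * (A l : ZMod (p ^ a)) *
        ((y l)⁻¹ : (ZMod (p ^ a))ˣ)) := ⟨_, rfl⟩
    have hterm : ∀ v : ℕ, ∏ l, cj (c l)
        (χ ((A l * (t0 + m * p ^ (a - b) * v) + B l : ℕ) : ZMod (p ^ a))) =
        (∏ l, cj (c l) (χ (((A l * t0 + B l : ℕ) : ZMod (p ^ a))))) *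
          χ (1 + π * (∑ l, w l) * (v : ZMod (p ^ a))) := by
      intro v
      have h1 : ∀ l, cj (c l) (χ ((A l * (t0 + m * p ^ (a - b) * v) + B l : ℕ) : ZMod (p ^ a))) =
          cj (c l) (χ (((A l * t0 + B l : ℕ) : ZMod (p ^ a)))) *
            χ (1 + π * (w l * (v : ZMod (p ^ a)))) := by
        intro l
        have h2 : ((A l * (t0 + m * p ^ (a - b) * v) + B l : ℕ) : ZMod (p ^ a)) =
            ((A l * t0 + B l : ℕ) : ZMod (p ^ a)) * (1 + π * ((m : ZMod (p ^ a)) *
              (A l : ZMod (p ^ a)) * ((y l)⁻¹ : (ZMod (p ^ a))ˣ)) * (v : ZMod (p ^ a))) := by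
          have h3 : (y l : ZMod (p ^ a)) * ((y l)⁻¹ : (ZMod (p ^ a))ˣ) = 1 := (y l).mul_inv
          rw [hy l] at h3
          rw [hπ]
          push_cast at h3 ⊢
          linear_combination (-((p : ZMod (p ^ a)) ^ (a - b) * m * A l * v)) * h3
        rw [h2, map_mul]
        have h4 : ∀ z z' : ℂ, cj (c l) (z * z') = cj (c l) z * cj (c l) z' := by
          intro z z'
          unfold cj
          split_ifs
          · rfl
          · rw [map_mul]
        rw [h4, cj_one_add χ (c l) _ (by linear_combination ((m : ZMod (p ^ a)) *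
              (A l : ZMod (p ^ a)) * ((y l)⁻¹ : (ZMod (p ^ a))ˣ)) ^ 2 * (v : ZMod (p ^ a)) ^ 2 * hπ2),
          hw]
        congr 2
        simp only
        split_ifs <;> ring
      rw [prod_congr rfl fun l _ => h1 l, prod_mul_distrib]
      congr 1
      rw [← map_prod, prod_one_add π hπ2, ← sum_mul, mul_assoc]
    rw [sum_congr rfl fun v _ => hterm v, ← mul_sum]
    have hκ : π * (∑ l, w l) ≠ 0 := by
      intro h0
      apply hG
      -- multiply by the product of the forms
      have h1 : (m : ZMod (p ^ a)) * (((gpol A B c).eval (t0 : ℤ) : ℤ) : ZMod (p ^ a)) =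
          (∑ l, w l) * ∏ l, (y l : ZMod (p ^ a)) := by
        unfold gpol
        rw [eval_finsetSum, sum_mul]
        push_cast
        rw [mul_sum]
        refine sum_congr rfl fun l _ => ?_
        rw [← mul_prod_erase univ (fun l => (y l : ZMod (p ^ a))) (mem_univ l), hw]
        simp only [eval_mul, eval_C, eval_prod, eval_add, eval_X]
        push_cast
        have h2 : ∏ l' ∈ univ.erase l, ((A l' : ZMod (p ^ a)) * (t0 : ZMod (p ^ a)) + B l') =
            ∏ l' ∈ univ.erase l, (y l' : ZMod (p ^ a)) := by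
          refine prod_congr rfl fun l' _ => ?_
          rw [hy l']
          push_cast
          ring
        rw [h2]
        have h3 : (y l : ZMod (p ^ a)) * ((y l)⁻¹ : (ZMod (p ^ a))ˣ) = 1 := (y l).mul_inv
        split_ifs
        · push_cast
          linear_combination (-((m : ZMod (p ^ a)) * A l *
            ∏ l' ∈ univ.erase l, (y l' : ZMod (p ^ a)))) * h3
        · push_cast
          linear_combination ((m : ZMod (p ^ a)) * A l *
            ∏ l' ∈ univ.erase l, (y l' : ZMod (p ^ a))) * h3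
      have h4 : π * ((m : ZMod (p ^ a)) * (((gpol A B c).eval (t0 : ℤ) : ℤ) : ZMod (p ^ a))) = 0 := by
        rw [h1, ← mul_assoc, h0, zero_mul]
      have hmu : IsUnit ((m : ℕ) : ZMod (p ^ a)) := by
        rw [ZMod.isUnit_iff_coprime]
        exact ((Nat.Prime.coprime_iff_not_dvd hp).2 hm).symm.pow_right _
      have h5 : π * (((gpol A B c).eval (t0 : ℤ) : ℤ) : ZMod (p ^ a)) = 0 := by
        obtain ⟨u, hu⟩ := hmu
        have h6 : (u : ZMod (p ^ a)) * (π * (((gpol A B c).eval (t0 : ℤ) : ℤ) : ZMod (p ^ a))) = 0 := by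
          rw [hu]
          linear_combination h4
        rwa [Units.mul_right_eq_zero] at h6
      have h7 : (((p : ℤ) ^ (a - b) * (gpol A B c).eval (t0 : ℤ) : ℤ) : ZMod (p ^ a)) = 0 := by
        push_cast
        rw [← hπ]
        exact h5
      rw [ZMod.intCast_zmod_eq_zero_iff_dvd] at h7
      have h8 : (p : ℤ) ^ a = (p : ℤ) ^ (a - b) * (p : ℤ) ^ b := by
        rw [← pow_add]
        congr 1
        omega
      push_cast at h7 ⊢
      rw [h8] at h7
      exact Int.dvd_of_mul_dvd_mul_left (pow_ne_zero _ (by exact_mod_cast hp.ne_zero)) h7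
    have h9 := sum_zero (b := b) hb (by omega) χ hχ (∑ l, w l) (by rw [← hπ]; exact hκ)
    rw [← hπ] at h9
    rw [h9, mul_zero]
  · push Not at hunit
    obtain ⟨l, hl⟩ := hunit
    refine sum_eq_zero fun v _ => ?_
    refine prod_eq_zero (mem_univ l) ?_
    have h1 : ¬ IsUnit ((A l * (t0 + m * p ^ (a - b) * v) + B l : ℕ) : ZMod (p ^ a)) := by
      rw [ZMod.isUnit_iff_coprime] at hl ⊢
      intro h2
      apply hl
      have h3 : Nat.Coprime (A l * (t0 + m * p ^ (a - b) * v) + B l) p :=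
        Nat.Coprime.coprime_dvd_right (dvd_pow_self p (by omega)) h2
      have h4 : p ∣ A l * (m * p ^ (a - b) * v) :=
        (((dvd_pow_self p (by omega)).mul_left m).mul_right v).mul_left (A l)
      have h5 : A l * (t0 + m * p ^ (a - b) * v) + B l =
          A l * t0 + B l + A l * (m * p ^ (a - b) * v) := by ring
      rw [h5] at h3
      have h6 : Nat.Coprime (A l * t0 + B l) p := by
        rw [Nat.coprime_comm, Nat.Prime.coprime_iff_not_dvd hp] at h3 ⊢
        exact fun h7 => h3 (h7.add h4)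
      exact h6.pow_right _
    rw [MulChar.map_nonunit _ h1]
    unfold cj
    split_ifs <;> simp

end Pool.H37.PP
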