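import Mathlib

/-!
# Few values of an integer polynomial divisible by a large number in a short interval

`few`: `T` of size `g + 1`: the Vandermonde matrix `V` of its elements satisfies `V *ᵥ (coefficients) = values`, so
`det V * coeff k = (adjugate V *ᵥ values) k` is divisible by `D` for every `k`; take `coeff k ≠ 0`; `det V ≠ 0`
(`Matrix.det_vandermonde_ne_zero_iff`) and `|det V| ≤ ℓ ^ ((g + 1) ^ 2)` (`Matrix.det_vandermonde`): contradiction with `D`.
`few_interval`: cut `[s, s + L)` into `L / ℓ + 1` pieces of length `ℓ`.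
-/

set_option autoImplicit false

open Finset Polynomial

namespace Pool.H37.PP

theorem few (g cb ℓ D : ℕ) (hℓ : 1 ≤ ℓ) (G : ℤ[X]) (hG0 : G ≠ 0) (hdeg : G.natDegree ≤ g)
    (hc : ∀ k, |G.coeff k| ≤ (cb : ℤ)) (hD : cb * ℓ ^ ((g + 1) ^ 2) < D) (T : Finset ℕ)
    (hT : ∀ t ∈ T, (D : ℤ) ∣ G.eval (t : ℤ)) (hw : ∀ t ∈ T, ∀ t' ∈ T, t ≤ t' + ℓ) :
    T.card ≤ g := by
  by_contra hcon
  obtain ⟨T', hT'T, hT'c⟩ := Finset.exists_subset_card_eq (s := T) (n := g + 1) (by omega)
  set f := T'.orderEmbOfFin hT'c with hf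
  have hfm : ∀ i, f i ∈ T := fun i => hT'T (T'.orderEmbOfFin_mem hT'c i)
  obtain ⟨v, hv⟩ : ∃ v : Fin (g + 1) → ℤ, ∀ i, v i = (f i : ℤ) := ⟨_, fun _ => rfl⟩
  have hvinj : Function.Injective v := by
    intro i j hij
    rw [hv, hv] at hij
    exact f.injective (by exact_mod_cast hij)
  have hvd : ∀ i j, |v j - v i| ≤ (ℓ : ℤ) := by
    intro i j
    have h1 := hw _ (hfm i) _ (hfm j)
    have h2 := hw _ (hfm j) _ (hfm i)
    rw [hv, hv, abs_le]
    constructor <;> omega
  have hV : Matrix.mulVec (Matrix.vandermonde v) (fun j : Fin (g + 1) => G.coeff j) =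
      fun i => G.eval (v i) := by
    funext i
    rw [eval_eq_sum_range' (Nat.lt_succ_of_le hdeg), ← Fin.sum_univ_eq_sum_range
      (fun j => G.coeff j * v i ^ j)]
    simp only [Matrix.mulVec, dotProduct, Matrix.vandermonde_apply]
    exact sum_congr rfl fun j _ => mul_comm _ _
  have hadj : Matrix.mulVec (Matrix.adjugate (Matrix.vandermonde v))
      (Matrix.mulVec (Matrix.vandermonde v) (fun j : Fin (g + 1) => G.coeff j)) =
      (Matrix.vandermonde v).det • (fun j : Fin (g + 1) => G.coeff j) := by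
    rw [Matrix.mulVec_mulVec, Matrix.adjugate_mul, Matrix.smul_mulVec, Matrix.one_mulVec]
  have hk := congrFun hadj ⟨G.natDegree, Nat.lt_succ_of_le hdeg⟩
  rw [hV] at hk
  simp only [Matrix.mulVec, dotProduct, Pi.smul_apply, smul_eq_mul] at hk
  have hdvd : (D : ℤ) ∣ (Matrix.vandermonde v).det * G.coeff G.natDegree := by
    rw [← hk]
    refine Finset.dvd_sum fun i _ => Dvd.dvd.mul_left ?_ _
    rw [hv]
    exact hT _ (hfm i)
  have hlead : G.coeff G.natDegree ≠ 0 := by
    rw [coeff_natDegree]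
    exact leadingCoeff_ne_zero.mpr hG0
  have hdet : (Matrix.vandermonde v).det ≠ 0 := Matrix.det_vandermonde_ne_zero_iff.mpr hvinj
  have hℓ' : (1 : ℤ) ≤ ℓ := by exact_mod_cast hℓ
  have hdetb : |(Matrix.vandermonde v).det| ≤ (ℓ : ℤ) ^ ((g + 1) ^ 2) := by
    rw [Matrix.det_vandermonde, abs_prod]
    have h3 : ∀ i : Fin (g + 1), |∏ j ∈ Ioi i, (v j - v i)| ≤ (ℓ : ℤ) ^ (g + 1) := by
      intro i
      rw [abs_prod]
      calc ∏ j ∈ Ioi i, |v j - v i| ≤ ∏ _j ∈ Ioi i, (ℓ : ℤ) :=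
            prod_le_prod (fun _ _ => abs_nonneg _) fun j _ => hvd i j
        _ = (ℓ : ℤ) ^ (Ioi i).card := by rw [prod_const]
        _ ≤ (ℓ : ℤ) ^ (g + 1) := by
            refine pow_le_pow_right₀ hℓ' ?_
            exact (card_le_univ _).trans (by rw [Fintype.card_fin])
    calc ∏ i : Fin (g + 1), |∏ j ∈ Ioi i, (v j - v i)| ≤ ∏ _i : Fin (g + 1), (ℓ : ℤ) ^ (g + 1) :=
          prod_le_prod (fun _ _ => abs_nonneg _) fun i _ => h3 i
      _ = (ℓ : ℤ) ^ ((g + 1) ^ 2) := by
          rw [prod_const, card_univ, Fintype.card_fin, ← pow_mul]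
          congr 1
          ring
  have hne : (Matrix.vandermonde v).det * G.coeff G.natDegree ≠ 0 := mul_ne_zero hdet hlead
  have hle := Int.le_of_dvd (abs_pos.mpr hne) ((dvd_abs _ _).mpr hdvd)
  have hlt : |(Matrix.vandermonde v).det * G.coeff G.natDegree| < (D : ℤ) := by
    rw [abs_mul]
    calc |(Matrix.vandermonde v).det| * |G.coeff G.natDegree| ≤ (ℓ : ℤ) ^ ((g + 1) ^ 2) * cb :=
          mul_le_mul hdetb (hc _) (abs_nonneg _) (by positivity)
      _ = ((cb * ℓ ^ ((g + 1) ^ 2) : ℕ) : ℤ) := by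
          push_cast
          ring
      _ < D := by exact_mod_cast hD
  omega

theorem few_interval (g cb ℓ D : ℕ) (hℓ : 1 ≤ ℓ) (G : ℤ[X]) (hG0 : G ≠ 0) (hdeg : G.natDegree ≤ g)
    (hc : ∀ k, |G.coeff k| ≤ (cb : ℤ)) (hD : cb * ℓ ^ ((g + 1) ^ 2) < D) (s L : ℕ) :
    ((range L).filter (fun t : ℕ => (D : ℤ) ∣ G.eval ((s + t : ℕ) : ℤ))).card ≤ g * (L / ℓ + 1) := by
  classical
  set F := (range L).filter (fun t : ℕ => (D : ℤ) ∣ G.eval ((s + t : ℕ) : ℤ)) with hF
  have h1 : F.card ≤ g * (F.image (fun t => t / ℓ)).card := by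
    refine card_le_mul_card_image F g fun a _ => ?_
    have h2 := few g cb ℓ D hℓ G hG0 hdeg hc hD ((F.filter (fun t => t / ℓ = a)).image (fun t => s + t))
      (fun t ht => by
        rw [mem_image] at ht
        obtain ⟨u, hu, rfl⟩ := ht
        rw [mem_filter, hF, mem_filter] at hu
        exact hu.1.2)
      (fun t ht t' ht' => by
        rw [mem_image] at ht ht'
        obtain ⟨u, hu, rfl⟩ := ht
        obtain ⟨u', hu', rfl⟩ := ht'
        rw [mem_filter] at hu hu'
        have h3 := Nat.div_add_mod u ℓ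
        have h4 := Nat.div_add_mod u' ℓ
        rw [hu.2] at h3
        rw [hu'.2] at h4
        have h5 := Nat.mod_lt u (by omega : 0 < ℓ)
        omega)
    rwa [card_image_of_injective _ (add_right_injective s)] at h2
  refine h1.trans (Nat.mul_le_mul_left _ ?_)
  refine (card_le_card (t := range (L / ℓ + 1)) ?_).trans (by rw [card_range])
  intro a ha
  rw [mem_image] at ha
  obtain ⟨t, ht, rfl⟩ := ha
  rw [hF, mem_filter, mem_range] at ht
  rw [mem_range]
  exact Nat.lt_succ_of_le (Nat.div_le_div_right ht.1.le)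

end Pool.H37.PP
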