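import Mathlib
import Pool.Agent.H37.PP.Ex
import Pool.Agent.H37.PP.Vd

/-!
# Products of shifted primitive characters mod `p ^ a`, `a ≥ 2`: complete blocks
-/

set_option autoImplicit false

open Finset Polynomial

namespace Pool.H37.PP

open Pool.H2.EL

lemma sum_range_mul (L n : ℕ) (F : ℕ → ℂ) :
    ∑ t ∈ range (L * n), F t = ∑ t ∈ range L, ∑ v ∈ range n, F (t + L * v) := by
  induction n with
  | zero => simp
  | succ n ih =>
    rw [Nat.mul_succ, sum_range_add, ih, ← sum_add_distrib]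
    refine sum_congr rfl fun t _ => ?_
    rw [sum_range_succ, add_comm (L * n) t]

/-- the numerators have bounded coefficients -/
lemma exists_bound (H Bd : ℕ) : ∃ cb : ℕ, 1 ≤ cb ∧ ∀ r : ℕ, r ≤ H → ∀ (A B : Fin r → ℕ) (c : Fin r → Bool),
    (∀ l, A l ≤ H) → (∀ l, B l ≤ Bd) → ∀ k, |(gpol A B c).coeff k| ≤ (cb : ℤ) := by
  classical
  obtain ⟨G, hG⟩ : ∃ G : (Σ r : Fin (H + 1), (Fin r → Fin (H + 1)) × (Fin r → Fin (Bd + 1)) ×
      (Fin r → Bool)) → ℤ[X], G = fun z => gpol (fun l => (z.2.1 l : ℕ)) (fun l => (z.2.2.1 l : ℕ))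
        z.2.2.2 := ⟨_, rfl⟩
  refine ⟨1 + ∑ z, ∑ k ∈ (G z).support, ((G z).coeff k).natAbs, by omega,
    fun r hr A B c hA hB k => ?_⟩
  obtain ⟨z, hz⟩ : ∃ z : (Σ r : Fin (H + 1), (Fin r → Fin (H + 1)) × (Fin r → Fin (Bd + 1)) ×
      (Fin r → Bool)), z = ⟨⟨r, by omega⟩, fun l => ⟨A l, by have := hA l; omega⟩,
        fun l => ⟨B l, by have := hB l; omega⟩, c⟩ := ⟨_, rfl⟩
  have h1 : gpol A B c = G z := by rw [hG, hz]
  rw [h1]
  by_cases hk : k ∈ (G z).support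
  · have h2 : ((G z).coeff k).natAbs ≤ ∑ k ∈ (G z).support, ((G z).coeff k).natAbs :=
      single_le_sum (f := fun k => ((G z).coeff k).natAbs) (fun _ _ => Nat.zero_le _) hk
    have h3 : ∑ k ∈ (G z).support, ((G z).coeff k).natAbs ≤
        ∑ z, ∑ k ∈ (G z).support, ((G z).coeff k).natAbs :=
      single_le_sum (f := fun z => ∑ k ∈ (G z).support, ((G z).coeff k).natAbs)
        (fun _ _ => Nat.zero_le _) (mem_univ z)
    rw [Int.abs_eq_natAbs]
    exact_mod_cast (h2.trans h3).trans (Nat.le_add_left _ _)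
  · rw [notMem_support_iff.1 hk, abs_zero]
    exact_mod_cast Nat.zero_le _

/-- the main estimate for prime powers -/
theorem kpp (H Bd : ℕ) {η : ℝ} (hη : 0 < η) : ∃ B0 P : ℕ, ∀ p : ℕ, ∀ _ : Fact p.Prime, ∀ a : ℕ,
    2 ≤ a → B0 ≤ p ^ (a / 2) → ∀ χ : DirichletCharacter ℂ (p ^ a), χ.IsPrimitive →
    ∀ m : ℕ, 0 < m → ¬ p ∣ m → ∀ N : ℕ, P * (m * p ^ a) ≤ N →
    ∀ v : ℕ → ℂ, (∀ t, v (t + m) = v t) → (∀ t, ‖v t‖ ≤ 1) → ∀ r : ℕ, 1 ≤ r → r ≤ H →
    ∀ (c : Fin r → Bool) (A C : Fin r → ℕ), (∀ l, 1 ≤ A l ∧ A l ≤ H) → (∀ l, C l ≤ Bd) →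
    (∀ l l', l ≠ l' → A l * C l' ≠ A l' * C l) → ∀ x : ℕ, x ≤ N →
    ‖∑ t ∈ range x, v t * ∏ l, cj (c l) (χ ((A l * t + C l : ℕ) : ZMod (p ^ a)))‖ ≤ η * N := by
  classical
  obtain ⟨cb, hcb1, hcb⟩ := exists_bound H Bd
  obtain ⟨ℓ, hℓ⟩ := exists_nat_ge (max 1 (4 * H / η))
  have hℓ1 : 1 ≤ ℓ := by
    have : (1 : ℝ) ≤ ℓ := (le_max_left _ _).trans hℓ
    exact_mod_cast this
  have hℓ2 : 4 * (H : ℝ) / η ≤ ℓ := (le_max_right _ _).trans hℓ
  obtain ⟨P, hP⟩ := exists_nat_ge (2 / η)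
  refine ⟨cb * ℓ ^ ((H + 1) ^ 2) + 1, P, fun p _ a ha hB0 χ hχ m hm0 hm N hN v hv hv1 r hr hrH c A C
    hA hC hne x hx => ?_⟩
  have hp : p.Prime := Fact.out
  obtain ⟨b, hb⟩ : ∃ b, b = a / 2 := ⟨_, rfl⟩
  rw [← hb] at hB0
  have hb1 : 1 ≤ b := by omega
  have hb2 : 2 * b ≤ a := by omega
  obtain ⟨L, hL⟩ : ∃ L, L = m * p ^ (a - b) := ⟨_, rfl⟩
  obtain ⟨F, hF⟩ : ∃ F : ℕ → ℂ, F = fun t => v t * ∏ l, cj (c l)
    (χ ((A l * t + C l : ℕ) : ZMod (p ^ a))) := ⟨_, rfl⟩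
  have hF1 : ∀ t, ‖F t‖ ≤ 1 := by
    intro t
    rw [hF]
    simp only
    rw [norm_mul, norm_prod]
    refine mul_le_one₀ (hv1 t) (prod_nonneg fun _ _ => norm_nonneg _) ?_
    refine prod_le_one (fun _ _ => norm_nonneg _) fun l _ => ?_
    rw [cj_norm]
    exact DirichletCharacter.norm_le_one χ _
  have hvper : ∀ t k, v (t + m * k) = v t := by
    intro t k
    induction k with
    | zero => rfl
    | succ k ih => rw [Nat.mul_succ, ← add_assoc, hv, ih]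
  have hpb : ℓ ≤ p ^ b := by
    have h1 : ℓ ≤ ℓ ^ ((H + 1) ^ 2) := Nat.le_self_pow (by positivity) ℓ
    have h2 : ℓ ^ ((H + 1) ^ 2) ≤ cb * ℓ ^ ((H + 1) ^ 2) := Nat.le_mul_of_pos_left _ hcb1
    omega
  have hLpb : p ^ b ≤ L := by
    rw [hL]
    calc p ^ b ≤ p ^ (a - b) := Nat.pow_le_pow_right hp.pos (by omega)
      _ = 1 * p ^ (a - b) := (one_mul _).symm
      _ ≤ m * p ^ (a - b) := Nat.mul_le_mul_right _ hm0
  have hLM : L * p ^ b = m * p ^ a := by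
    rw [hL, mul_assoc, ← pow_add, show a - b + b = a by omega]
  -- one block
  have hblock : ∀ s : ℕ, ‖∑ t ∈ range (L * p ^ b), F (s + t)‖ ≤ 2 * H * (L * p ^ b : ℕ) / ℓ := by
    intro s
    rw [sum_range_mul L (p ^ b) (fun t => F (s + t))]
    refine (norm_sum_le _ _).trans ?_
    have h1 : ∀ t ∈ range L, ‖∑ u ∈ range (p ^ b), F (s + (t + L * u))‖ ≤
        if ((p ^ b : ℕ) : ℤ) ∣ (gpol A C c).eval ((s + t : ℕ) : ℤ) then (p : ℝ) ^ b else 0 := by
      intro t _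
      have h2 : ∑ u ∈ range (p ^ b), F (s + (t + L * u)) = v (s + t) * ∑ u ∈ range (p ^ b),
          ∏ l, cj (c l) (χ ((A l * ((s + t) + m * p ^ (a - b) * u) + C l : ℕ) : ZMod (p ^ a))) := by
        rw [mul_sum]
        refine sum_congr rfl fun u _ => ?_
        rw [hF]
        simp only
        rw [← add_assoc, hL]
        congr 1
        rw [mul_assoc]
        exact hvper _ _
      rw [h2, norm_mul]
      refine (mul_le_of_le_one_left (norm_nonneg _) (hv1 _)).trans ?_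
      exact inner hb1 hb2 χ hχ hm A C c (s + t)
    refine (sum_le_sum h1).trans ?_
    rw [← sum_filter, sum_const, nsmul_eq_mul]
    have h3 := few_interval H cb ℓ (p ^ b) hℓ1 (gpol A C c)
      (gpol_ne_zero hr A C c (fun l => (hA l).1) hne) ((natDegree_gpol A C c).trans hrH)
      (hcb r hrH A C c (fun l => (hA l).2) hC) (by omega) s L
    have h4 : ((((range L).filter (fun t : ℕ => ((p ^ b : ℕ) : ℤ) ∣
        (gpol A C c).eval ((s + t : ℕ) : ℤ))).card : ℕ) : ℝ) ≤ H * (2 * L / ℓ) := by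
      have h5 : ((((range L).filter (fun t : ℕ => ((p ^ b : ℕ) : ℤ) ∣
        (gpol A C c).eval ((s + t : ℕ) : ℤ))).card : ℕ) : ℝ) ≤ (H * (L / ℓ + 1) : ℕ) := by
        exact_mod_cast h3
      refine h5.trans ?_
      push_cast
      have hℓr : (0 : ℝ) < ℓ := by exact_mod_cast hℓ1
      have h6 : ((L / ℓ : ℕ) : ℝ) ≤ L / ℓ := Nat.cast_div_le
      have h7 : (1 : ℝ) ≤ L / ℓ := by
        rw [le_div_iff₀ hℓr, one_mul]
        exact_mod_cast hpb.trans hLpb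
      have h8 : ((L / ℓ : ℕ) : ℝ) + 1 ≤ 2 * L / ℓ := by
        have : (2 : ℝ) * L / ℓ = L / ℓ + L / ℓ := by ring
        linarith
      exact mul_le_mul_of_nonneg_left h8 (Nat.cast_nonneg _)
    calc ((((range L).filter (fun t : ℕ => ((p ^ b : ℕ) : ℤ) ∣
        (gpol A C c).eval ((s + t : ℕ) : ℤ))).card : ℕ) : ℝ) * (p : ℝ) ^ b
        ≤ H * (2 * L / ℓ) * (p : ℝ) ^ b := mul_le_mul_of_nonneg_right h4 (by positivity)
      _ = 2 * H * (L * p ^ b : ℕ) / ℓ := by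
        push_cast
        ring
  -- all blocks
  obtain ⟨M, hM⟩ : ∃ M, M = L * p ^ b := ⟨_, rfl⟩
  have hMpos : 0 < M := by
    rw [hM]
    exact Nat.mul_pos (lt_of_lt_of_le (Nat.pow_pos hp.pos) hLpb) (Nat.pow_pos hp.pos)
  have hblocks : ∀ k : ℕ, ‖∑ t ∈ range (k * M), F t‖ ≤ k * (2 * H * (M : ℝ) / ℓ) := by
    intro k
    induction k with
    | zero => simp
    | succ k ih =>
      rw [Nat.succ_mul, sum_range_add]
      refine (norm_add_le _ _).trans ?_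
      have h1 := hblock (k * M)
      rw [← hM] at h1
      push_cast
      linarith
  obtain ⟨k, s, hs, hxk⟩ : ∃ k s, s < M ∧ x = k * M + s :=
    ⟨x / M, x % M, Nat.mod_lt _ hMpos, by rw [mul_comm]; exact (Nat.div_add_mod x M).symm⟩
  have hgoal : ‖∑ t ∈ range x, F t‖ ≤ η * N := by
    rw [hxk, sum_range_add]
    refine (norm_add_le _ _).trans ?_
    have h1 : ‖∑ t ∈ range s, F (k * M + t)‖ ≤ s := by
      refine (norm_sum_le _ _).trans ((sum_le_sum fun t _ => hF1 _).trans ?_)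
      rw [sum_const, card_range, nsmul_eq_mul, mul_one]
    have h2 := hblocks k
    have hℓr : (0 : ℝ) < ℓ := by exact_mod_cast hℓ1
    have h3 : (k : ℝ) * M ≤ N := by
      have : k * M ≤ N := by omega
      exact_mod_cast this
    have h4 : (k : ℝ) * (2 * H * (M : ℝ) / ℓ) ≤ η / 2 * N := by
      have h5 : 4 * (H : ℝ) ≤ ℓ * η := by rwa [div_le_iff₀ hη] at hℓ2
      have h6 : 2 * (H : ℝ) / ℓ ≤ η / 2 := by
        rw [div_le_iff₀ hℓr]
        linarith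
      calc (k : ℝ) * (2 * H * (M : ℝ) / ℓ) = (2 * (H : ℝ) / ℓ) * (k * M) := by ring
        _ ≤ η / 2 * N := mul_le_mul h6 h3 (by positivity) (by positivity)
    have h7 : (s : ℝ) ≤ η / 2 * N := by
      have h8 : (P : ℝ) * M ≤ N := by
        have : P * M ≤ N := by
          rw [hM, hLM]
          exact hN
        exact_mod_cast this
      have h9 : 2 / η * (M : ℝ) ≤ N := (mul_le_mul_of_nonneg_right hP (Nat.cast_nonneg _)).trans h8
      have h10 : (M : ℝ) ≤ η / 2 * N := by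
        have h11 : (M : ℝ) = η / 2 * (2 / η * M) := by field_simp
        rw [h11]
        exact mul_le_mul_of_nonneg_left h9 (by positivity)
      have h12 : (s : ℝ) ≤ M := by exact_mod_cast hs.le
      linarith
    linarith
  rw [hF] at hgoal
  exact hgoal

end Pool.H37.PP
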