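import Mathlib

set_option autoImplicit false

/-!
`greedy`: a greedy choice of pairwise not close elements. `big_part`: a large number has a large prime power
part.
-/

namespace Pool.H37.PP

open Finset

theorem greedy {α : Type*} (close : α → α → Prop) (C : ℕ) : ∀ (M : ℕ) (T : Finset α),
    (∀ z ∈ T, ∃ D : Finset α, D.card ≤ C ∧ z ∈ D ∧ ∀ z' ∈ T, close z z' → z' ∈ D) →
    C * M < T.card →
    ∃ e : Fin M → α, (∀ m, e m ∈ T) ∧ (∀ m m', m < m' → ¬ close (e m) (e m')) ∧
      Function.Injective e := by
  classical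
  intro M
  induction M with
  | zero =>
    intro T _ _
    exact ⟨fun m => m.elim0, fun m => m.elim0, fun m => m.elim0, fun m => m.elim0⟩
  | succ M ih =>
    intro T hT hc
    obtain ⟨z, hz⟩ : T.Nonempty := Finset.card_pos.1 (by omega)
    obtain ⟨D, hD, hzD, hcl⟩ := hT z hz
    have hcard : C * M < (T \ D).card := by
      have h1 := Finset.le_card_sdiff D T
      have h2 : C * (M + 1) = C * M + C := by ring
      omega
    obtain ⟨e, he1, he2, he3⟩ := ih (T \ D) (by
      intro y hy
      obtain ⟨D', h1, h2, h3⟩ := hT y (Finset.mem_sdiff.1 hy).1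
      exact ⟨D', h1, h2, fun z' hz' => h3 z' (Finset.mem_sdiff.1 hz').1⟩) hcard
    refine ⟨Fin.cons z e, ?_, ?_, ?_⟩
    · intro m
      refine Fin.cases ?_ (fun i => ?_) m
      · rw [Fin.cons_zero]
        exact hz
      · rw [Fin.cons_succ]
        exact (Finset.mem_sdiff.1 (he1 i)).1
    · intro m
      refine Fin.cases ?_ (fun i => ?_) m
      · intro m'
        refine Fin.cases ?_ (fun i' => ?_) m'
        · intro h
          exact absurd h (lt_irrefl _)
        · intro _ h
          rw [Fin.cons_zero, Fin.cons_succ] at h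
          have hm := Finset.mem_sdiff.1 (he1 i')
          exact hm.2 (hcl _ hm.1 h)
      · intro m'
        refine Fin.cases ?_ (fun i' => ?_) m'
        · intro h
          exact absurd h (Fin.not_lt_zero _)
        · intro h h'
          rw [Fin.cons_succ, Fin.cons_succ] at h'
          exact he2 i i' (Fin.succ_lt_succ_iff.1 h) h'
    · rw [Fin.cons_injective_iff]
      refine ⟨?_, he3⟩
      rintro ⟨i, hi⟩
      have hm := Finset.mem_sdiff.1 (he1 i)
      rw [hi] at hm
      exact hm.2 hzD

theorem big_part (P0 B0 : ℕ) : ∃ F : ℕ, ∀ f : ℕ, F < f → ∃ p a f' : ℕ, p.Prime ∧ 1 ≤ a ∧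
    f = p ^ a * f' ∧ ¬ p ∣ f' ∧ ((a = 1 ∧ P0 ≤ p) ∨ (2 ≤ a ∧ B0 ≤ p ^ (a / 2))) := by
  set T : ℕ := P0 + B0 ^ 3 + 1 with hT
  refine ⟨T ^ T, fun f hf => ?_⟩
  by_contra hcon
  push Not at hcon
  have hf0 : f ≠ 0 := by omega
  have hbd : ∀ p ∈ f.primeFactors, p ^ f.factorization p ≤ T := by
    intro p hp
    have hpp := Nat.prime_of_mem_primeFactors hp
    have hdvd := Nat.dvd_of_mem_primeFactors hp
    have ha : 1 ≤ f.factorization p := (hpp.dvd_iff_one_le_factorization hf0).1 hdvd
    have h := hcon p (f.factorization p) (f / p ^ f.factorization p) hpp ha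
      (Nat.ordProj_mul_ordCompl_eq_self f p).symm (Nat.not_dvd_ordCompl hpp hf0)
    rcases Nat.lt_or_ge (f.factorization p) 2 with h1 | h2
    · have h3 : f.factorization p = 1 := by omega
      have h4 := h.1 h3
      rw [h3, pow_one]
      omega
    · have h5 := h.2 h2
      have h6 : f.factorization p ≤ (f.factorization p / 2) * 3 := by omega
      calc p ^ f.factorization p ≤ p ^ ((f.factorization p / 2) * 3) :=
            Nat.pow_le_pow_right hpp.pos h6
        _ = (p ^ (f.factorization p / 2)) ^ 3 := by rw [pow_mul]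
        _ ≤ B0 ^ 3 := Nat.pow_le_pow_left h5.le 3
        _ ≤ T := by omega
  have h1 : f = ∏ p ∈ f.primeFactors, p ^ f.factorization p := by
    conv_lhs => rw [← Nat.prod_factorization_pow_eq_self hf0]
    rfl
  have h2 : ∏ p ∈ f.primeFactors, p ^ f.factorization p ≤ T ^ f.primeFactors.card := by
    calc ∏ p ∈ f.primeFactors, p ^ f.factorization p ≤ ∏ _p ∈ f.primeFactors, T :=
          Finset.prod_le_prod' hbd
      _ = T ^ f.primeFactors.card := Finset.prod_const T
  have h3 : f.primeFactors.card ≤ T := by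
    have hsub : f.primeFactors ⊆ Finset.Icc 1 T := by
      intro p hp
      have hpp := Nat.prime_of_mem_primeFactors hp
      have hdvd := Nat.dvd_of_mem_primeFactors hp
      have ha : 1 ≤ f.factorization p := (hpp.dvd_iff_one_le_factorization hf0).1 hdvd
      refine Finset.mem_Icc.2 ⟨hpp.one_le, le_trans ?_ (hbd p hp)⟩
      calc p = p ^ 1 := (pow_one p).symm
        _ ≤ p ^ f.factorization p := Nat.pow_le_pow_right hpp.pos ha
    have := Finset.card_le_card hsub
    rwa [Nat.card_Icc, Nat.add_sub_cancel] at this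
  have h4 : T ^ f.primeFactors.card ≤ T ^ T := Nat.pow_le_pow_right (by omega) h3
  omega

end Pool.H37.PP
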