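import Mathlib
import Pool.Agent.H18.QT.Prm
import Pool.Agent.H37.WM.Wb
import Pool.Agent.H37.PP.Bk
import Pool.Agent.H37.PP.Gr

/-!
# Sums of a character of large conductor along affine forms

`core`: `ψ` primitive of conductor `f > F`, `f ∣ Q`, `v` of period `m` prime to `f`, `N ≥ P Q m`: the sums of
`v(t) Π_l ψ^(±)(A_l t + C_l)`, restricted to `(A_l t + C_l, Q) = 1`, are at most `η N`.
-/

set_option autoImplicit false

namespace Pool.H37.PP

open Finset Pool.H2.EL Pool.Agent.H18.QT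

/-- complete sums -/
lemma wb {p : ℕ} [Fact p.Prime] (χ : DirichletCharacter ℂ p) (hχ : χ ≠ 1) (R : ℕ) :
    WB χ R (22 * (R + 1) * √(p : ℝ)) := by
  intro ι _ ρ c hcard ⟨j0, hj0⟩
  refine (Pool.H37.WM.weil_prod χ hχ ι ρ c j0 hj0).trans ?_
  refine mul_le_mul_of_nonneg_right ?_ (Real.sqrt_nonneg _)
  have h1 : (Fintype.card ι : ℝ) ≤ R := by exact_mod_cast hcard
  have h2 : (0 : ℝ) ≤ R := Nat.cast_nonneg R
  linarith

theorem core (H Bd : ℕ) {η : ℝ} (hη : 0 < η) :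
    ∃ F P : ℕ, ∀ Q : ℕ, Q ≠ 0 → ∀ f : ℕ, f ∣ Q → ∀ ψ : DirichletCharacter ℂ f,
    ψ.IsPrimitive → F < f → ∀ m : ℕ, 0 < m → m.Coprime f → ∀ N : ℕ, P * (Q * m) ≤ N →
    ∀ v : ℕ → ℂ, (∀ t, v (t + m) = v t) → (∀ t, ‖v t‖ ≤ 1) →
    ∀ r : ℕ, 1 ≤ r → r ≤ H → ∀ (b : Fin r → Bool) (A C : Fin r → ℕ),
    (∀ l, 1 ≤ A l ∧ A l ≤ H) → (∀ l, C l ≤ Bd) →
    (∀ l l', l ≠ l' → A l * C l' ≠ A l' * C l) → ∀ x : ℕ, x ≤ N →
    ‖∑ t ∈ range x, v t * ∏ l, cj (b l) (if (A l * t + C l).Coprime Q then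
      ψ ((A l * t + C l : ℕ) : ZMod f) else 0)‖ ≤ η * N := by
  classical
  obtain ⟨R, P1, hkar⟩ := kar H Bd hη (δ := 1 / 2) (by norm_num)
  obtain ⟨B0, P2, hkpp⟩ := kpp H Bd hη
  obtain ⟨F, hF⟩ := big_part P1 B0
  refine ⟨F, P2 + 1, ?_⟩
  intro Q hQ0 f hfQ ψ hψ hFf m hm0 hmf N hN v hv hvb r hr hrH b A C hA hC hfr x hx
  obtain ⟨p, a, f', hp, ha, hfe, hpf', hcase⟩ := hF f hFf
  have hpf : Fact p.Prime := ⟨hp⟩
  obtain ⟨e, Q', hpQ', hQ⟩ := Nat.exists_eq_pow_mul_and_not_dvd hQ0 p hp.ne_one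
  have hQ'0 : 0 < Q' := Nat.pos_of_ne_zero fun h => by rw [h, mul_zero] at hQ; exact hQ0 hQ
  obtain ⟨pp, hpp⟩ : ∃ pp, pp = p ^ a := ⟨_, rfl⟩
  rw [← hpp] at hfe
  subst hfe
  have hpp0 : pp ≠ 0 := by rw [hpp]; exact pow_ne_zero _ hp.ne_zero
  have hppp : p ∣ pp := by rw [hpp]; exact dvd_pow_self p (by omega)
  have hf'0 : f' ≠ 0 := fun h => hpf' (by rw [h]; exact dvd_zero _)
  have hcop : pp.Coprime f' := by
    rw [hpp]
    exact Nat.Coprime.pow_left _ ((Nat.Prime.coprime_iff_not_dvd hp).2 hpf')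
  have hpm : ¬ p ∣ m := by
    intro h
    have h1 : p ∣ Nat.gcd m (pp * f') := Nat.dvd_gcd h (hppp.trans (Dvd.intro _ rfl))
    rw [hmf] at h1
    exact hp.one_lt.ne' (Nat.dvd_one.1 h1)
  -- the parts of the modulus
  have hppe : pp ∣ p ^ e := by
    have h1 : pp ∣ p ^ e * Q' := by rw [← hQ]; exact (Dvd.intro _ rfl).trans hfQ
    refine Nat.Coprime.dvd_of_dvd_mul_right ?_ h1
    rw [hpp]
    exact Nat.Coprime.pow_left _ ((Nat.Prime.coprime_iff_not_dvd hp).2 hpQ')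
  have hf'Q : f' ∣ Q' := by
    have h1 : f' ∣ p ^ e * Q' := by rw [← hQ]; exact (Dvd.intro_left _ rfl).trans hfQ
    refine Nat.Coprime.dvd_of_dvd_mul_left ?_ h1
    exact (Nat.Coprime.pow_left _ ((Nat.Prime.coprime_iff_not_dvd hp).2 hpf')).symm
  have hle : Q' * m * pp ≤ Q * m := by
    rw [hQ, show Q' * m * pp = pp * (Q' * m) by ring, mul_assoc (p ^ e)]
    exact Nat.mul_le_mul_right _ (Nat.le_of_dvd (Nat.pow_pos hp.pos) hppe)
  have hpQm : ¬ p ∣ Q' * m := fun h => (hp.dvd_mul.1 h).elim hpQ' hpm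
  obtain ⟨ψ1, ψ2, hs1, _, hs3⟩ := Pool.Agent.H75.QT.split hpp0 hf'0 hcop ψ
  obtain ⟨hprim, _⟩ := hs3 hψ
  obtain ⟨V, hV⟩ : ∃ V : ℕ → ℂ, V = fun n => if n.Coprime Q' then ψ2 (n : ZMod f') else 0 :=
    ⟨_, rfl⟩
  have hVper : ∀ n c, V (n + Q' * c) = V n := by
    intro n c
    rw [hV]
    simp only
    have h1 : (n + Q' * c).Coprime Q' ↔ n.Coprime Q' := by
      rw [Nat.coprime_add_mul_left_left]
    have h2 : ((n + Q' * c : ℕ) : ZMod f') = (n : ZMod f') := by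
      push_cast
      rw [(ZMod.natCast_eq_zero_iff Q' f').2 hf'Q, zero_mul, add_zero]
    rw [h2]
    simp only [h1]
  have hVb : ∀ n, ‖V n‖ ≤ 1 := by
    intro n
    rw [hV]
    simp only
    split_ifs
    · exact DirichletCharacter.norm_le_one _ _
    · simp
  have hquot : ∀ n : ℕ, (if n.Coprime Q then ψ (n : ZMod (pp * f')) else 0) =
      V n * ψ1 (n : ZMod pp) := by
    intro n
    split_ifs with hn
    · have hnQ : n.Coprime Q' :=
        Nat.Coprime.coprime_dvd_right (by rw [hQ]; exact Dvd.intro_left _ rfl) hn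
      rw [hs1, hV]
      simp only
      rw [if_pos hnQ, mul_comm]
    · by_cases hpn : p ∣ n
      · rw [MulChar.map_nonunit ψ1, mul_zero]
        intro h
        have h1 := (ZMod.isUnit_iff_coprime n pp).1 h
        have h3 : p ∣ Nat.gcd n pp := Nat.dvd_gcd hpn hppp
        rw [h1] at h3
        exact hp.one_lt.ne' (Nat.dvd_one.1 h3)
      · have hnQ : ¬ n.Coprime Q' := by
          intro h
          apply hn
          rw [hQ]
          exact Nat.Coprime.mul_right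
            (Nat.Coprime.pow_right _ ((Nat.Prime.coprime_iff_not_dvd hp).2 hpn).symm) h
        rw [hV]
        simp only
        rw [if_neg hnQ, zero_mul]
  have hterm : ∀ t : ℕ, (v t * ∏ l, cj (b l) (if (A l * t + C l).Coprime Q then
      ψ ((A l * t + C l : ℕ) : ZMod (pp * f')) else 0)) =
      (v t * ∏ l, cj (b l) (V (A l * t + C l))) *
        ∏ l, cj (b l) (ψ1 ((A l * t + C l : ℕ) : ZMod pp)) := by
    intro t
    rw [mul_assoc, ← prod_mul_distrib]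
    congr 1
    refine prod_congr rfl fun l _ => ?_
    rw [hquot, cj_mul']
  rw [sum_congr rfl fun t _ => hterm t]
  have hvm : ∀ t c, v (t + m * c) = v t := by
    intro t c
    induction c with
    | zero => rw [mul_zero, add_zero]
    | succ c ih => rw [mul_add, mul_one, ← add_assoc, hv, ih]
  have hvper : ∀ t : ℕ, (v (t + Q' * m) * ∏ l, cj (b l) (V (A l * (t + Q' * m) + C l))) =
      v t * ∏ l, cj (b l) (V (A l * t + C l)) := by
    intro t
    rw [mul_comm Q' m, hvm]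
    congr 1
    refine prod_congr rfl fun l _ => ?_
    congr 1
    rw [show A l * (t + m * Q') + C l = A l * t + C l + Q' * (m * A l) by ring, hVper]
  have hvb : ∀ t : ℕ, ‖v t * ∏ l, cj (b l) (V (A l * t + C l))‖ ≤ 1 := by
    intro t
    rw [norm_mul, norm_prod]
    refine mul_le_one₀ (hvb t) (prod_nonneg fun _ _ => norm_nonneg _)
      (prod_le_one (fun _ _ => norm_nonneg _) fun l _ => ?_)
    rw [cj_norm]
    exact hVb _
  have hQm0 : 0 < Q' * m := Nat.mul_pos hQ'0 hm0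
  rcases hcase with ⟨ha1, hPp⟩ | ⟨ha2, hB⟩
  · have hpe : pp = p := by rw [hpp, ha1, pow_one]
    subst hpe
    have hψ1 : ψ1 ≠ 1 := by
      intro h
      rw [h] at hprim
      have h1 : (1 : DirichletCharacter ℂ pp).conductor = pp := hprim
      rw [DirichletCharacter.conductor_one] at h1
      exact hp.one_lt.ne h1
    refine hkar pp hpf hPp ψ1 (wb ψ1 hψ1 R) (Q' * m) hQm0 hpQm N ?_ _ hvper hvb r hr hrH b A C
      hA hC hfr x hx
    rw [show (1 / 2 + 1 / 2 : ℝ) = 1 by norm_num, Real.rpow_one]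
    have h1 : Q' * m * pp ≤ N := by
      refine hle.trans (le_trans ?_ hN)
      exact Nat.le_mul_of_pos_left _ (Nat.succ_pos _)
    exact_mod_cast h1
  · subst hpp
    refine hkpp p hpf a ha2 hB ψ1 hprim (Q' * m) hQm0 hpQm N ?_ _ hvper hvb r hr hrH b A C
      hA hC hfr x hx
    calc P2 * (Q' * m * p ^ a) ≤ P2 * (Q * m) := Nat.mul_le_mul_left _ hle
      _ ≤ (P2 + 1) * (Q * m) := Nat.mul_le_mul_right _ (Nat.le_succ _)
      _ ≤ N := hN

end Pool.H37.PP
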