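import Mathlib

/-!
# Primitive characters which agree at the integers coprime to some number are equal

Raise both to the level `q q' M`: there they are equal, so the conductors `q`, `q'` are equal, and raising the level is
injective.
-/

set_option autoImplicit false

namespace Pool.H37.PP

open DirichletCharacter

private theorem lvl {q M : ℕ} (hM : M ≠ 0) (hd : q ∣ M) (χ : DirichletCharacter ℂ q) (n : ℕ)
    (hn : n.Coprime M) : changeLevel hd χ (n : ZMod M) = χ (n : ZMod q) := by
  have h := changeLevel_eq_cast_of_dvd χ hd (ZMod.unitOfCoprime n hn)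
  rw [ZMod.coe_unitOfCoprime] at h
  rw [h]
  congr 1
  exact ZMod.cast_natCast hd n

theorem prim_unique {q q' M : ℕ} (hq : q ≠ 0) (hq' : q' ≠ 0) (hM : M ≠ 0)
    (χ : DirichletCharacter ℂ q) (χ' : DirichletCharacter ℂ q') (h : χ.IsPrimitive)
    (h' : χ'.IsPrimitive)
    (hag : ∀ n : ℕ, n.Coprime M → χ (n : ZMod q) = χ' (n : ZMod q')) :
    (⟨q, χ⟩ : Σ q : ℕ, DirichletCharacter ℂ q) = ⟨q', χ'⟩ := by
  have hQ : q * q' * M ≠ 0 := mul_ne_zero (mul_ne_zero hq hq') hM
  have hNe : NeZero (q * q' * M) := ⟨hQ⟩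
  have h1 : q ∣ q * q' * M := Dvd.intro _ (mul_assoc q q' M).symm
  have h2 : q' ∣ q * q' * M := Dvd.dvd.mul_right (Dvd.intro_left _ rfl) _
  have heq : changeLevel h1 χ = changeLevel h2 χ' := by
    refine MulChar.ext fun u => ?_
    obtain ⟨n, hn⟩ : ∃ n : ℕ, n = (u : ZMod (q * q' * M)).val := ⟨_, rfl⟩
    have hcop : n.Coprime (q * q' * M) := by
      rw [hn]
      exact ZMod.val_coe_unit_coprime u
    have hu : (u : ZMod (q * q' * M)) = (n : ZMod (q * q' * M)) := by
      rw [hn, ZMod.natCast_zmod_val]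
    rw [hu, lvl hQ h1 χ n hcop, lvl hQ h2 χ' n hcop]
    exact hag n (Nat.Coprime.coprime_dvd_right (Dvd.intro_left _ rfl) hcop)
  have hc1 := conductor_changeLevel χ h1
  have hc2 := conductor_changeLevel χ' h2
  rw [(isPrimitive_def χ).mp h] at hc1
  rw [(isPrimitive_def χ').mp h'] at hc2
  have hqq : q = q' := hc1.symm.trans ((congrArg (fun ξ => conductor ξ) heq).trans hc2)
  subst hqq
  have := changeLevel_injective h1 heq
  rw [this]

end Pool.H37.PP
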