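import Mathlib
import Pool.Agent.H37.PP.Core
import Pool.Agent.H37.PP.Pu
import Pool.Agent.H75.QT.Quo

/-!
# Primitive characters of any conductor `q ≤ c √N`

`pairA`: two characters whose quotient has a large conductor are orthogonal along affine forms.
`pigA`: few characters are exceptional. `primA`: the theorem.
-/

set_option autoImplicit false

namespace Pool.H37.PP

open Finset Pool.H2.EL Pool.Agent.H18.QT

/-- two characters whose quotient has a large conductor -/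
theorem pairA (H h0 : ℕ) {η : ℝ} (hη : 0 < η) :
    ∃ F P : ℕ, ∀ q q' : ℕ, ∀ (χ : DirichletCharacter ℂ q)
    (χ' : DirichletCharacter ℂ q') (Q : ℕ), Q ≠ 0 → (∀ n : ℕ, n.Coprime Q → n.Coprime (q * q')) →
    (∀ n : ℕ, n.Coprime (q * q') → n.Coprime Q) → ∀ f : ℕ, f ∣ Q → ∀ ψ : DirichletCharacter ℂ f,
    ψ.IsPrimitive → (∀ n : ℕ, n.Coprime Q →
      χ (n : ZMod q) * (starRingEnd ℂ) (χ' (n : ZMod q')) = ψ (n : ZMod f)) → F < f →
    ∀ N : ℕ, P * Q ≤ N → ∀ r : ℕ, 1 ≤ r → r ≤ H → ∀ (b : Fin r → Bool) (α β : Fin r → ℕ),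
    (∀ l, 1 ≤ α l ∧ α l ≤ H) → (∀ l, β l ≤ H) →
    (∀ l l', l ≠ l' → α l * (β l' + h0) ≠ α l' * (β l + h0)) → ∀ x : ℕ, x ≤ N →
    ‖∑ t ∈ range x, (∏ l, cj (b l) (χ ((α l * t + (β l + h0) : ℕ) : ZMod q))) *
      (starRingEnd ℂ) (∏ l, cj (b l) (χ' ((α l * t + (β l + h0) : ℕ) : ZMod q')))‖ ≤ η * N := by
  classical
  obtain ⟨F, P, hP⟩ := core H (H + h0) hη
  refine ⟨F, P, ?_⟩
  intro q q' χ χ' Q hQ0 hQ1 hQ2 f hfQ ψ hψ hag hFf N hN r hr hrH b α β hα hβ hfr x hx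
  have h1 := hP Q hQ0 f hfQ ψ hψ hFf 1 one_pos (Nat.coprime_one_left f) N (by rwa [mul_one])
    (fun _ => 1) (fun _ => rfl) (fun _ => by simp) r hr hrH b α (fun l => β l + h0) hα
    (fun l => by have := hβ l; omega) hfr x hx
  refine le_trans (le_of_eq ?_) h1
  congr 1
  refine sum_congr rfl fun t _ => ?_
  rw [one_mul, map_prod, ← prod_mul_distrib]
  refine prod_congr rfl fun l _ => ?_
  have e1 : (starRingEnd ℂ) (cj (b l) (χ' ((α l * t + (β l + h0) : ℕ) : ZMod q'))) =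
      cj (b l) ((starRingEnd ℂ) (χ' ((α l * t + (β l + h0) : ℕ) : ZMod q'))) := by
    unfold cj
    cases b l <;> simp
  rw [e1, ← cj_mul']
  congr 1
  split_ifs with hn
  · exact hag _ hn
  · have hn' : ¬ (α l * t + (β l + h0)).Coprime (q * q') := fun h => hn (hQ2 _ h)
    rw [Nat.coprime_mul_iff_right, not_and_or] at hn'
    rcases hn' with hn' | hn'
    · rw [MulChar.map_nonunit _ (fun h => hn' ((ZMod.isUnit_iff_coprime _ q).1 h)), zero_mul]
    · rw [MulChar.map_nonunit χ' (fun h => hn' ((ZMod.isUnit_iff_coprime _ q').1 h)), map_zero,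
        mul_zero]

/-- the quotient has a small conductor -/
def Close (F : ℕ) (z z' : Σ q : ℕ, DirichletCharacter ℂ q) : Prop :=
  ∃ y : Σ q : ℕ, DirichletCharacter ℂ q, y.1 ≤ F ∧ ∀ n : ℕ, n.Coprime (z.1 * z'.1) →
    z.2 (n : ZMod z.1) * (starRingEnd ℂ) (z'.2 (n : ZMod z'.1)) = y.2 (n : ZMod y.1)

/-- a character is close to few others -/
lemma close_few (F : ℕ) (T : Finset (Σ q : ℕ, DirichletCharacter ℂ q))
    (hT : ∀ z ∈ T, z.1 ≠ 0 ∧ z.2.IsPrimitive) (z : Σ q : ℕ, DirichletCharacter ℂ q) (hz : z ∈ T) :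
    ∃ D : Finset (Σ q : ℕ, DirichletCharacter ℂ q), D.card ≤ (cands (F + 1)).card + 1 ∧ z ∈ D ∧
      ∀ z' ∈ T, Close F z z' → z' ∈ D := by
  classical
  refine ⟨insert z (T.filter (Close F z)), (card_insert_le _ _).trans ?_, mem_insert_self _ _,
    fun z' hz' hc => mem_insert_of_mem (mem_filter.2 ⟨hz', hc⟩)⟩
  refine Nat.add_le_add_right ?_ 1
  refine card_le_card_of_injOn
    (fun z' => if h : Close F z z' then h.choose else ⟨0, 1⟩) (fun z' hz' => ?_) ?_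
  · have hc := (mem_filter.1 hz').2
    simp only [dif_pos hc]
    exact mem_cands (Nat.lt_succ_of_le hc.choose_spec.1)
  · intro u hu v hv huv
    have hu' := mem_filter.1 hu
    have hv' := mem_filter.1 hv
    simp only [dif_pos hu'.2, dif_pos hv'.2] at huv
    obtain ⟨-, h1⟩ := hu'.2.choose_spec
    obtain ⟨-, h2⟩ := hv'.2.choose_spec
    rw [← huv] at h2
    obtain ⟨hz0, hzp⟩ := hT z hz
    obtain ⟨hu0, hup⟩ := hT u hu'.1
    obtain ⟨hv0, hvp⟩ := hT v hv'.1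
    refine prim_unique hu0 hv0 (M := z.1 * u.1 * v.1)
      (Nat.mul_ne_zero (Nat.mul_ne_zero hz0 hu0) hv0) u.2 v.2 hup hvp fun n hn => ?_
    rw [Nat.coprime_mul_iff_right, Nat.coprime_mul_iff_right] at hn
    obtain ⟨⟨hnz, hnu⟩, hnv⟩ := hn
    have h3 := (h1 n (Nat.coprime_mul_iff_right.2 ⟨hnz, hnu⟩)).trans
      (h2 n (Nat.coprime_mul_iff_right.2 ⟨hnz, hnv⟩)).symm
    have h4 : z.2 (n : ZMod z.1) ≠ 0 := by
      have h5 := DirichletCharacter.unit_norm_eq_one z.2 (ZMod.unitOfCoprime n hnz)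
      rw [ZMod.coe_unitOfCoprime] at h5
      intro h6
      rw [h6, norm_zero] at h5
      exact zero_ne_one h5
    exact (starRingEnd ℂ).injective (mul_left_cancel₀ h4 h3)

/-- few primitive characters are exceptional -/
theorem pigA (h0 H : ℕ) {δ : ℝ} (hδ : 0 < δ) :
    ∃ K P : ℕ, ∀ N : ℕ, ∀ w : ℕ → ℂ, (∀ n, ‖w n‖ ≤ 1) →
      ∀ Bad : Finset (Σ q : ℕ, DirichletCharacter ℂ q),
      (∀ z ∈ Bad, z.1 ≠ 0 ∧ P * z.1 ^ 2 ≤ N ∧ z.2.IsPrimitive ∧
        ¬ Unc (fun n => w n * z.2 ((n + h0 : ℕ) : ZMod z.1)) h0 H N δ) → Bad.card ≤ K := by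
  classical
  obtain ⟨M, hM⟩ := exists_nat_ge (2 / (δ / 2) ^ 2)
  have hδ2 : 0 < δ / 2 := by positivity
  have hη : 0 < (δ / 2) ^ 2 / 2 := by positivity
  obtain ⟨F, P, hP⟩ := pairA H h0 hη
  obtain ⟨R, hR⟩ := exists_nat_ge (4 / δ)
  refine ⟨Fintype.card (Cf H × Fin (R + 1)) * (((cands (F + 1)).card + 1) * M), P + R,
    fun N w hw Bad hBad => ?_⟩
  by_contra hcon
  push Not at hcon
  obtain ⟨z00, hz00⟩ : Bad.Nonempty := card_pos.1 (lt_of_le_of_lt (Nat.zero_le _) hcon)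
  have hNR : P + R ≤ N := by
    obtain ⟨h1, h2, _⟩ := hBad z00 hz00
    have h3 : 1 ≤ z00.1 ^ 2 := Nat.one_le_pow _ _ (Nat.pos_of_ne_zero h1)
    nlinarith
  have hN : 4 / δ ≤ N := hR.trans (by exact_mod_cast (by omega : R ≤ N))
  have h2 : ∀ z ∈ Bad, ∃ y : Cf H × Fin (R + 1), y.1.Ok h0 ∧
      δ / 2 * N < ‖∑ t ∈ range (N * y.2 / R),
        (∏ l, cj (y.1.2.2.2 l) (w ((y.1.2.1 l : ℕ) * t + (y.1.2.2.1 l : ℕ)))) *
        ∏ l, cj (y.1.2.2.2 l)
          (z.2 (((y.1.2.1 l : ℕ) * t + ((y.1.2.2.1 l : ℕ) + h0) : ℕ) : ZMod z.1))‖ := by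
    intro z hz
    exact cutg hδ hR hN w hw (fun n => z.2 (n : ZMod z.1))
      (fun n => DirichletCharacter.norm_le_one _ _) (hBad z hz).2.2.2
  have : Nonempty (Cf H × Fin (R + 1)) := ⟨(h2 z00 hz00).choose⟩
  choose! y hy1 hy2 using h2
  obtain ⟨g, _, hz2⟩ := exists_lt_card_fiber_of_mul_lt_card_of_maps_to
    (s := Bad) (t := (univ : Finset (Cf H × Fin (R + 1)))) (f := y)
    (n := ((cands (F + 1)).card + 1) * M) (fun _ _ => mem_univ _) (by
      rw [card_univ]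
      exact hcon)
  obtain ⟨T, hT⟩ : ∃ T, T = Bad.filter fun z => y z = g := ⟨_, rfl⟩
  rw [← hT] at hz2
  have hTB : ∀ z ∈ T, z ∈ Bad ∧ y z = g := fun z hz => by
    rw [hT] at hz
    exact mem_filter.1 hz
  obtain ⟨e, heT, hfar, _⟩ := greedy (Close F) ((cands (F + 1)).card + 1) M T
    (close_few F T fun z hz => ⟨(hBad z (hTB z hz).1).1, (hBad z (hTB z hz).1).2.2.1⟩) hz2
  have heB : ∀ m, e m ∈ Bad := fun m => (hTB _ (heT m)).1
  have hez : ∀ m, y (e m) = g := fun m => (hTB _ (heT m)).2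
  have hMpos : 0 < M := by
    have : (0 : ℝ) < M := lt_of_lt_of_le (by positivity) hM
    exact_mod_cast this
  have hok : g.1.Ok h0 := by
    rw [← hez ⟨0, hMpos⟩]
    exact hy1 _ (heB _)
  have hxN : N * g.2 / R ≤ N := by
    refine Nat.div_le_of_le_mul ?_
    rw [mul_comm]
    exact Nat.mul_le_mul_right _ (Nat.le_of_lt_succ g.2.2)
  have hα : ∀ l, 1 ≤ (g.1.2.1 l : ℕ) ∧ (g.1.2.1 l : ℕ) ≤ H :=
    fun l => ⟨hok.2.1 l, Nat.le_of_lt_succ (g.1.2.1 l).2⟩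
  have hβ : ∀ l, (g.1.2.2.1 l : ℕ) ≤ H := fun l => Nat.le_of_lt_succ (g.1.2.2.1 l).2
  have hrH : (g.1.1 : ℕ) ≤ H := Nat.le_of_lt_succ g.1.1.2
  have hqq : ∀ m m', P * ((e m).1 * (e m').1) ≤ N := by
    intro m m'
    have h1 := (hBad _ (heB m)).2.1
    have h2 := (hBad _ (heB m')).2.1
    rcases le_total (e m).1 (e m').1 with h | h
    · refine le_trans ?_ h2
      rw [sq]
      exact Nat.mul_le_mul (Nat.le_add_right _ _) (Nat.mul_le_mul_right _ h)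
    · refine le_trans ?_ h1
      rw [sq]
      exact Nat.mul_le_mul (Nat.le_add_right _ _) (Nat.mul_le_mul_left _ h)
  have hpair : ∀ m m', m < m' → ‖∑ t ∈ range (N * g.2 / R),
      (∏ l, cj (g.1.2.2.2 l)
        ((e m).2 (((g.1.2.1 l : ℕ) * t + ((g.1.2.2.1 l : ℕ) + h0) : ℕ) : ZMod (e m).1))) *
      (starRingEnd ℂ) (∏ l, cj (g.1.2.2.2 l)
        ((e m').2 (((g.1.2.1 l : ℕ) * t + ((g.1.2.2.1 l : ℕ) + h0) : ℕ) : ZMod (e m').1)))‖ ≤
      (δ / 2) ^ 2 / 2 * N := by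
    intro m m' hmm
    obtain ⟨a1, _, a3, _⟩ := hBad _ (heB m)
    obtain ⟨b1, _, b3, _⟩ := hBad _ (heB m')
    obtain ⟨f, hf, ψ, hψ, hag⟩ := Pool.Agent.H75.QT.quotient a1 b1 (e m).2 (e m').2
    have hFf : F < f := by
      by_contra hcc
      push Not at hcc
      exact hfar m m' hmm ⟨⟨f, ψ⟩, hcc, hag⟩
    exact hP _ _ _ _ _ (Nat.mul_ne_zero a1 b1) (fun _ h => h) (fun _ h => h) f hf ψ hψ hag hFf N
      (hqq m m') _ hok.1 hrH _ _ _ hα hβ hok.2.2 _ hxN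
  obtain ⟨m, hm⟩ := bessel hxN
    (fun t => ∏ l, cj (g.1.2.2.2 l) (w ((g.1.2.1 l : ℕ) * t + (g.1.2.2.1 l : ℕ)))) (fun t => by
      rw [norm_prod]
      refine prod_le_one (fun _ _ => norm_nonneg _) fun l _ => ?_
      rw [cj_norm]
      exact hw _)
    (fun m t => ∏ l, cj (g.1.2.2.2 l)
      ((e m).2 (((g.1.2.1 l : ℕ) * t + ((g.1.2.2.1 l : ℕ) + h0) : ℕ) : ZMod (e m).1)))
    (fun m t => by
      rw [norm_prod]
      refine prod_le_one (fun _ _ => norm_nonneg _) fun l _ => ?_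
      rw [cj_norm]
      exact DirichletCharacter.norm_le_one _ _) hδ2 hM (by
      intro m m' hmm
      rcases lt_or_gt_of_ne hmm with h | h
      · exact hpair m m' h
      · refine le_trans (le_of_eq ?_) (hpair m' m h)
        rw [← RCLike.norm_conj, map_sum]
        congr 1
        refine sum_congr rfl fun t _ => ?_
        rw [map_mul, Complex.conj_conj, mul_comm])
  have h5 := hy2 (e m) (heB m)
  rw [hez m] at h5
  linarith

/-- primitive characters of conductor `q`, `P q² ≤ N` -/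
theorem primA (k : ℕ) (h : Fin k → ℤ) (j : Fin k)
    (hne : ∀ i, i ≠ j → h i ≠ h j) {ε : ℝ} (hε : 0 < ε) :
    ∃ K P : ℕ, ∀ N : ℕ, ∀ S : Finset (Fin k), j ∉ S →
      ∀ d : Fin k → ArithmeticFunction ℂ, (∀ i n, ‖d i n‖ ≤ 1) →
      ∃ E : Finset (Σ q : ℕ, DirichletCharacter ℂ q), E.card ≤ K ∧ ∀ q : ℕ, q ≠ 0 →
      P * q ^ 2 ≤ N → ∀ χ : DirichletCharacter ℂ q, χ.IsPrimitive → ⟨q, χ⟩ ∉ E →
      ∀ G : Fin k → ArithmeticFunction ℂ, (∀ i n, ‖G i n‖ ≤ 1) →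
      (∀ i ∈ S, (G i).IsMultiplicative) → (∀ i, i ∉ S → i ≠ j → G i = d i) →
      (∀ n : ℕ, G j n = d j n * χ (n : ZMod q)) →
      ‖(1 / (N : ℂ)) * ∑ n ∈ Icc 1 N, ∏ i, G i ((n : ℤ) + h i).toNat‖ ≤ ε := by
  classical
  rcases k with _ | k
  · exact j.elim0
  obtain ⟨H, δ, N0, s, hδ, hs, hfin⟩ := fin_core k h j hne ε hε
  obtain ⟨K, P, hK⟩ := pigA (h j + s).toNat H hδ
  refine ⟨K, P + N0 + 1, fun N S hjS d hd => ?_⟩
  obtain ⟨w, hw⟩ : ∃ w : ℕ → ℂ, w = fun n => ∏ x ∈ univ \ S, d x (n + (h x + s).toNat) := ⟨_, rfl⟩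
  refine ⟨(cands (N + 1)).filter fun z => z.1 ≠ 0 ∧ P * z.1 ^ 2 ≤ N ∧ z.2.IsPrimitive ∧
    ¬ Unc (fun n => w n * z.2 ((n + (h j + s).toNat : ℕ) : ZMod z.1)) (h j + s).toNat H N δ,
    hK N w (fun n => ?_) _ (fun z hz => (mem_filter.1 hz).2), ?_⟩
  · rw [hw]
    simp only
    rw [norm_prod]
    exact prod_le_one (fun _ _ => norm_nonneg _) fun x _ => hd x _
  · intro q hq hqN χ hprim hE G hG hGS hGd hGj
    have hq1 : q ≤ q ^ 2 := Nat.le_self_pow two_ne_zero _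
    have hq2 : 1 ≤ q ^ 2 := Nat.one_le_pow _ _ (Nat.pos_of_ne_zero hq)
    have hqN1 : P * q ^ 2 ≤ N := by nlinarith
    have hqN2 : q ^ 2 ≤ N := by nlinarith
    have hN0 : N0 ≤ N := by nlinarith
    have hunc : Unc (fun n => w n * χ ((n + (h j + s).toNat : ℕ) : ZMod q))
        (h j + s).toNat H N δ := by
      by_contra hcon
      refine hE (mem_filter.2 ⟨mem_cands ?_, hq, hqN1, hprim, hcon⟩)
      show q < N + 1
      omega
    refine hfin N hN0 G S hjS hG hGS ?_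
    have h1 : (fun n => ∏ x ∈ univ \ S, G x (n + (h x + s).toNat)) =
        fun n => w n * χ ((n + (h j + s).toNat : ℕ) : ZMod q) := by
      funext n
      have hjm : j ∈ univ \ S := by
        rw [mem_sdiff]
        exact ⟨mem_univ _, hjS⟩
      rw [hw]
      simp only
      rw [← mul_prod_erase _ _ hjm, ← mul_prod_erase _ (fun x => d x (n + (h x + s).toNat)) hjm,
        hGj]
      have h2 : ∏ x ∈ (univ \ S).erase j, G x (n + (h x + s).toNat) =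
          ∏ x ∈ (univ \ S).erase j, d x (n + (h x + s).toNat) := by
        refine prod_congr rfl fun x hx => ?_
        rw [mem_erase, mem_sdiff] at hx
        rw [hGd x hx.2.2 hx.1]
      rw [h2]
      ring
    rw [h1]
    exact hunc

end Pool.H37.PP
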