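import Mathlib
import Pool.Agent.H18.QT.Gen

/-!
# [H37 PP Sn] incomplete sums of a periodic function: high moments of short shifts

`shortN`: the argument of `Pool.Agent.H18.QT.short` for a function on the naturals with period `M`.
-/

set_option autoImplicit false

namespace Pool.H37.PP

open Finset Pool.H2.EL Pool.Agent.H18.QT

/-- the high moment -/
private lemma momN {M k K : ℕ} (hk : 0 < k) (g : ℕ → ℂ) (hb : ∀ s, ‖g s‖ ≤ 1) (U : ℕ) {B : ℝ}
    (hB : 0 ≤ B)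
    (hword : ∀ ν : Fin k × Bool → Fin K, ∀ n : Fin K, (univ.filter fun i => ν i = n).card = 1 →
      ‖∑ s ∈ range M, ∏ z, cj z.2 (g (s + U * (ν z : ℕ)))‖ ≤ B) :
    ∑ s ∈ range M, ‖∑ n : Fin K, g (s + U * (n : ℕ))‖ ^ (2 * k) ≤
      k ^ (2 * k) * K ^ k * M + K ^ (2 * k) * B := by
  classical
  have hnorm : ∀ z : ℂ, ((‖z‖ ^ (2 * k) : ℝ) : ℂ) = ∏ y : Fin k × Bool, cj y.2 z := by
    intro z
    rw [Fintype.prod_prod_type]
    simp only [Fintype.prod_bool]
    rw [prod_const, card_univ, Fintype.card_fin, pow_mul]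
    congr 1
    unfold cj
    simp only [if_true, Bool.false_eq_true, if_false]
    rw [Complex.mul_conj, Complex.normSq_eq_norm_sq]
    push_cast
    rfl
  have h1 : ((∑ s ∈ range M, ‖∑ n : Fin K, g (s + U * (n : ℕ))‖ ^ (2 * k) : ℝ) : ℂ) =
      ∑ ν : Fin k × Bool → Fin K, ∑ s ∈ range M, ∏ z, cj z.2 (g (s + U * (ν z : ℕ))) := by
    rw [Complex.ofReal_sum, sum_comm]
    refine sum_congr rfl fun s _ => ?_
    rw [hnorm]
    simp only [cj_sum]
    rw [prod_univ_sum, Fintype.piFinset_univ]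
  have h1' : ∑ s ∈ range M, ‖∑ n : Fin K, g (s + U * (n : ℕ))‖ ^ (2 * k) =
      ‖((∑ s ∈ range M, ‖∑ n : Fin K, g (s + U * (n : ℕ))‖ ^ (2 * k) : ℝ) : ℂ)‖ := by
    rw [Complex.norm_real, Real.norm_of_nonneg (sum_nonneg fun _ _ => by positivity)]
  rw [h1', h1]
  have h2 : ∀ ν : Fin k × Bool → Fin K,
      ‖∑ s ∈ range M, ∏ z, cj z.2 (g (s + U * (ν z : ℕ)))‖ ≤
      (if ∀ n, (univ.filter fun i => ν i = n).card ≠ 1 then (M : ℝ) else 0) + B := by
    intro ν
    split_ifs with hev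
    · have e1 : ‖∑ s ∈ range M, ∏ z, cj z.2 (g (s + U * (ν z : ℕ)))‖ ≤ ∑ _s ∈ range M, (1 : ℝ) := by
        refine (norm_sum_le _ _).trans (sum_le_sum fun s _ => ?_)
        rw [norm_prod]
        refine prod_le_one (fun _ _ => norm_nonneg _) fun z _ => ?_
        rw [cj_norm]
        exact hb _
      rw [sum_const, card_range, nsmul_eq_mul, mul_one] at e1
      linarith
    · rw [zero_add]
      push Not at hev
      obtain ⟨n, hn⟩ := hev
      exact hword ν n hn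
  refine (norm_sum_le _ _).trans ((sum_le_sum fun ν _ => h2 ν).trans ?_)
  rw [sum_add_distrib, ← sum_filter, sum_const, sum_const, card_univ, Fintype.card_fun,
    Fintype.card_fin, Fintype.card_prod, Fintype.card_fin, Fintype.card_bool, nsmul_eq_mul,
    nsmul_eq_mul]
  have h3 : (((univ : Finset (Fin k × Bool → Fin K)).filter fun ν =>
      ∀ n, (univ.filter fun i => ν i = n).card ≠ 1).card : ℝ) ≤ k ^ (2 * k) * K ^ k := by
    exact_mod_cast words k K hk (W := Fin k × Bool) (by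
      rw [Fintype.card_prod, Fintype.card_fin, Fintype.card_bool, mul_comm])
  push_cast
  rw [mul_comm k 2]
  gcongr

/-- a nonnegative periodic function -/
private lemma perN {M : ℕ} (hM : 0 < M) (g : ℕ → ℝ) (hg0 : ∀ y, 0 ≤ g y)
    (hg : ∀ s, g (s + M) = g s) (X : ℕ) :
    ∑ s ∈ range X, g s ≤ ((X / M : ℕ) + 1) * ∑ y ∈ range M, g y := by
  have hp : ∀ u s : ℕ, g (M * u + s) = g s := by
    intro u
    induction u with
    | zero => intro s; simp
    | succ u ih =>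
      intro s
      rw [show M * (u + 1) + s = (M * u + s) + M by ring, hg, ih]
  have h1 : ∀ u : ℕ, ∑ s ∈ range (M * u), g s = u * ∑ y ∈ range M, g y := by
    intro u
    induction u with
    | zero => simp
    | succ u ih =>
      rw [mul_add, mul_one, sum_range_add, ih]
      have h3 : ∑ s ∈ range M, g (M * u + s) = ∑ y ∈ range M, g y :=
        sum_congr rfl fun s _ => hp u s
      rw [h3]
      push_cast
      ring
  have h3 : X ≤ M * (X / M + 1) := by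
    have := Nat.div_add_mod X M
    have := Nat.mod_lt X hM
    rw [mul_add, mul_one]
    omega
  calc ∑ s ∈ range X, g s ≤ ∑ s ∈ range (M * (X / M + 1)), g s :=
        sum_le_sum_of_subset_of_nonneg (range_mono h3) fun _ _ _ => hg0 _
    _ = ((X / M : ℕ) + 1) * ∑ y ∈ range M, g y := by rw [h1]; push_cast; ring

/-- shifts -/
private lemma shiftsN {K : ℕ} (g : ℕ → ℂ) (hb : ∀ s, ‖g s‖ ≤ 1) (U X : ℕ) :
    (K : ℝ) * ‖∑ s ∈ range X, g s‖ ≤
      ∑ s ∈ range X, ‖∑ n : Fin K, g (s + U * (n : ℕ))‖ + 2 * U * K ^ 2 := by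
  have h1 : ∀ n : Fin K, ‖∑ s ∈ range X, g s - ∑ s ∈ range X, g (s + U * (n : ℕ))‖ ≤
      2 * U * K := by
    intro n
    have e1 : ∑ s ∈ range (X + U * n), g s =
        ∑ s ∈ range X, g s + ∑ s ∈ range (U * n), g (X + s) := sum_range_add _ _ _
    have e2 : ∑ s ∈ range (U * n + X), g s =
        ∑ s ∈ range (U * n), g s + ∑ s ∈ range X, g (U * n + s) := sum_range_add _ _ _
    have e3 : ∑ s ∈ range X, g (U * n + s) = ∑ s ∈ range X, g (s + U * (n : ℕ)) := by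
      refine sum_congr rfl fun s _ => ?_
      rw [add_comm]
    rw [add_comm (U * (n : ℕ)) X, e1, e3] at e2
    have e4 : ∑ s ∈ range X, g s - ∑ s ∈ range X, g (s + U * (n : ℕ)) =
      ∑ s ∈ range (U * n), g s - ∑ s ∈ range (U * n), g (X + s) := by linear_combination e2
    rw [e4]
    have e5 : ∀ g : ℕ → ℂ, (∀ s, ‖g s‖ ≤ 1) → ‖∑ s ∈ range (U * n), g s‖ ≤ U * n := by
      intro g hg
      refine (norm_sum_le _ _).trans ((sum_le_sum fun s _ => hg s).trans ?_)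
      rw [sum_const, card_range, nsmul_eq_mul, mul_one]
      push_cast
      exact le_rfl
    have e6 := e5 (fun s => g s) fun s => hb _
    have e7 := e5 (fun s => g (X + s)) fun s => hb _
    have e8 : ((n : ℕ) : ℝ) ≤ K := by exact_mod_cast n.2.le
    have e9 : (U : ℝ) * (n : ℕ) ≤ U * K := mul_le_mul_of_nonneg_left e8 (Nat.cast_nonneg _)
    have e10 := norm_sub_le (∑ s ∈ range (U * n), g s) (∑ s ∈ range (U * n), g (X + s))
    linarith
  have h2 : (K : ℂ) * ∑ s ∈ range X, g s =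
      ∑ s ∈ range X, (∑ n : Fin K, g (s + U * (n : ℕ))) +
      ∑ n : Fin K, (∑ s ∈ range X, g s - ∑ s ∈ range X, g (s + U * (n : ℕ))) := by
    rw [sum_sub_distrib, sum_comm]
    simp only [sum_const, card_univ, Fintype.card_fin, nsmul_eq_mul]
    ring
  have h3 : (K : ℝ) * ‖∑ s ∈ range X, g s‖ = ‖(K : ℂ) * ∑ s ∈ range X, g s‖ := by
    rw [norm_mul, Complex.norm_natCast]
  rw [h3, h2]
  refine (norm_add_le _ _).trans (add_le_add (norm_sum_le _ _) ?_)
  refine (norm_sum_le _ _).trans ((sum_le_sum fun n _ => h1 n).trans ?_)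
  rw [sum_const, card_univ, Fintype.card_fin, nsmul_eq_mul]
  exact le_of_eq (by ring)

/-- incomplete sums of a periodic function -/
theorem shortN {M k K : ℕ} (hk : 0 < k) (hM : 0 < M) (g : ℕ → ℂ) (hg : ∀ s, g (s + M) = g s)
    (hb : ∀ s, ‖g s‖ ≤ 1) (U : ℕ) {B : ℝ} (hB : 0 ≤ B)
    (hword : ∀ ν : Fin k × Bool → Fin K, ∀ n : Fin K, (univ.filter fun i => ν i = n).card = 1 →
      ‖∑ s ∈ range M, ∏ z, cj z.2 (g (s + U * (ν z : ℕ)))‖ ≤ B * √(M : ℝ))
    (hK : (M : ℝ) ≤ (K : ℝ) ^ (2 * k)) {X : ℕ} (hX : 1 ≤ X) {η : ℝ} (hη : 0 < η)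
    (hsm : (1 / √(M : ℝ) + √(M : ℝ) / X) * (k ^ (2 * k) + B) ≤ η ^ (2 * k)) :
    ‖∑ s ∈ range X, g s‖ ≤ η * X + 2 * U * K := by
  classical
  have hp0 : (0 : ℝ) < M := by exact_mod_cast hM
  have hX0 : (0 : ℝ) < X := by exact_mod_cast hX
  have hs0 : 0 < √(M : ℝ) := Real.sqrt_pos.2 hp0
  have hsq : √(M : ℝ) * √(M : ℝ) = M := Real.mul_self_sqrt hp0.le
  have hM0 : (0 : ℝ) < K := by
    rcases Nat.eq_zero_or_pos K with h | h
    · rw [h, Nat.cast_zero, zero_pow (by omega)] at hK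
      linarith
    · exact_mod_cast h
  obtain ⟨T, hT⟩ : ∃ T : ℕ → ℂ, T = fun y => ∑ n : Fin K, g (y + U * (n : ℕ)) := ⟨_, rfl⟩
  obtain ⟨Sg, hSg⟩ : ∃ Sg : ℝ, Sg = ∑ s ∈ range X, ‖T s‖ := ⟨_, rfl⟩
  have hTp : ∀ s, T (s + M) = T s := by
    intro s
    rw [hT]
    refine sum_congr rfl fun n _ => ?_
    rw [show s + M + U * (n : ℕ) = (s + U * (n : ℕ)) + M by ring, hg]
  -- the moment
  have h1 := momN hk g hb U (by positivity) hword
  have h2 := perN hM (fun y => ‖T y‖ ^ (2 * k)) (fun y => by positivity)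
    (fun s => by simp only [hTp]) X
  have h3 : ∑ s ∈ range X, ‖T s‖ ^ (2 * k) ≤
      ((X / M : ℕ) + 1) * (k ^ (2 * k) * K ^ k * M + K ^ (2 * k) * (B * √(M : ℝ))) := by
    refine h2.trans ?_
    refine mul_le_mul_of_nonneg_left ?_ (by positivity)
    rw [hT]
    exact h1
  have h4 : Sg ^ (2 * k) ≤ (X : ℝ) ^ (2 * k - 1) * ∑ s ∈ range X, ‖T s‖ ^ (2 * k) := by
    have e1 := pow_sum_div_card_le_sum_pow (s := range X) (f := fun s : ℕ => ‖T s‖)
      (fun _ _ => norm_nonneg _) (2 * k - 1)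
    rw [card_range, show 2 * k - 1 + 1 = 2 * k by omega, div_le_iff₀ (by positivity), ← hSg] at e1
    refine e1.trans (le_of_eq ?_)
    rw [mul_comm]
  have h5 : k ^ (2 * k) * (K : ℝ) ^ k * M + K ^ (2 * k) * (B * √(M : ℝ)) ≤
      K ^ (2 * k) * √(M : ℝ) * (k ^ (2 * k) + B) := by
    have e1 : √(M : ℝ) ≤ (K : ℝ) ^ k := by
      rw [← Real.sqrt_sq (by positivity : (0 : ℝ) ≤ (K : ℝ) ^ k)]
      refine Real.sqrt_le_sqrt (hK.trans (le_of_eq ?_))
      rw [← pow_mul]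
      congr 1
      ring
    have e2 : (K : ℝ) ^ k * M ≤ K ^ (2 * k) * √(M : ℝ) := by
      calc (K : ℝ) ^ k * M = K ^ k * √(M : ℝ) * √(M : ℝ) := by rw [mul_assoc, hsq]
        _ ≤ K ^ k * K ^ k * √(M : ℝ) := by gcongr
        _ = K ^ (2 * k) * √(M : ℝ) := by rw [← pow_add]; congr 2; ring
    calc k ^ (2 * k) * (K : ℝ) ^ k * M + K ^ (2 * k) * (B * √(M : ℝ))
        = k ^ (2 * k) * ((K : ℝ) ^ k * M) + K ^ (2 * k) * (B * √(M : ℝ)) := by ring
      _ ≤ k ^ (2 * k) * (K ^ (2 * k) * √(M : ℝ)) + K ^ (2 * k) * (B * √(M : ℝ)) := by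
          gcongr
      _ = K ^ (2 * k) * √(M : ℝ) * (k ^ (2 * k) + B) := by ring
  have h6 : Sg ^ (2 * k) ≤ (η * X * K) ^ (2 * k) := by
    have e1 : ((X / M : ℕ) : ℝ) + 1 ≤ X * (1 / M + 1 / X) := by
      have : ((X / M : ℕ) : ℝ) ≤ X / M := Nat.cast_div_le
      have e2 : (X : ℝ) * (1 / M + 1 / X) = X / M + 1 := by field_simp
      linarith
    have e0 : (0 : ℝ) ≤ K ^ (2 * k) * √(M : ℝ) * (k ^ (2 * k) + B) := by positivity
    calc Sg ^ (2 * k) ≤ (X : ℝ) ^ (2 * k - 1) * (((X / M : ℕ) + 1) *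
          (K ^ (2 * k) * √(M : ℝ) * (k ^ (2 * k) + B))) := by
          refine h4.trans (mul_le_mul_of_nonneg_left (h3.trans ?_) (by positivity))
          exact mul_le_mul_of_nonneg_left h5 (by positivity)
      _ ≤ (X : ℝ) ^ (2 * k - 1) * ((X * (1 / M + 1 / X)) *
          (K ^ (2 * k) * √(M : ℝ) * (k ^ (2 * k) + B))) := by gcongr
      _ = (X ^ (2 * k - 1) * X) * K ^ (2 * k) *
          ((√(M : ℝ) * (1 / M) + √(M : ℝ) / X) * (k ^ (2 * k) + B)) := by ring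
      _ = X ^ (2 * k) * K ^ (2 * k) *
          ((1 / √(M : ℝ) + √(M : ℝ) / X) * (k ^ (2 * k) + B)) := by
          have e5 : √(M : ℝ) * (1 / M) = 1 / √(M : ℝ) := by
            rw [mul_one_div, div_eq_div_iff hp0.ne' hs0.ne', hsq, one_mul]
          rw [e5, ← pow_succ, show 2 * k - 1 + 1 = 2 * k by omega]
      _ ≤ X ^ (2 * k) * K ^ (2 * k) * η ^ (2 * k) := by gcongr
      _ = (η * X * K) ^ (2 * k) := by rw [mul_pow, mul_pow]; ring
  have h7 : Sg ≤ η * X * K := le_of_pow_le_pow_left₀ (by omega) (by positivity) h6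
  have h9 : (K : ℝ) * ‖∑ s ∈ range X, g s‖ ≤ Sg + 2 * U * K ^ 2 := by
    rw [hSg]
    simp only [hT]
    exact shiftsN (K := K) g hb U X
  have h10 : (K : ℝ) * ‖∑ s ∈ range X, g s‖ ≤ K * (η * X + 2 * U * K) := by
    refine h9.trans ?_
    nlinarith
  exact le_of_mul_le_mul_left h10 hM0

end Pool.H37.PP
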