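import Mathlib
import Pool.Agent.H37.PP.Core
import Pool.Agent.H37.PP.Sn
import Pool.Agent.H75.QT.Two

/-!
# Two primes at once

`kar2`: `|Σ_{t < x} Π_l χ^(±)(A_l t + C_l) Π_l χ'^(±)(A_l t + C_l)| ≤ η N` for `x ≤ N`, for nonprincipal characters
modulo two different primes `N ^ (1/4) ≤ p, p' ≤ N ^ (1 - δ)`.
-/

set_option autoImplicit false

namespace Pool.H37.PP

open Finset Pool.H2.EL Pool.Agent.H18.QT Filter Topology

/-- large `N` -/
lemma large2 (H Bd : ℕ) {η δ e Kc : ℝ} (hη : 0 < η) (hδ : 0 < δ) (he : 0 < e) (hKc : 0 < Kc) :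
    ∀ᶠ N : ℕ in atTop, 1 ≤ N ∧ (H : ℝ) < (N : ℝ) ^ (1 / 4 : ℝ) ∧
      (H * Bd : ℝ) + (H * Bd + 1) * (2 * (N : ℝ) ^ (1 / 8 : ℝ)) * H ^ 2 < (N : ℝ) ^ (1 / 4 : ℝ) ∧
      ((N : ℝ) ^ (-(1 / 4) : ℝ) + (1 / η) * (N : ℝ) ^ (-δ)) * Kc ≤ e ∧
      2 * ((H * Bd + 1 : ℕ) : ℝ) * (2 * (N : ℝ) ^ (1 / 8 : ℝ)) ≤ η / 2 * N := by
  have key : ∀ (a c : ℝ), 0 < a → 0 < c → ∀ᶠ p : ℕ in atTop, (p : ℝ) ^ (-a) ≤ c := by
    intro a c ha hc
    exact ((tendsto_rpow_neg_atTop ha).comp tendsto_natCast_atTop_atTop).eventually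
      (ge_mem_nhds hc |> fun h => by simpa using h)
  filter_upwards [eventually_ge_atTop 1,
    key (1 / 4) (1 / (2 * (H * Bd + H + 1))) (by norm_num) (by positivity),
    key (1 / 8) (1 / (4 * ((H * Bd + 1) * H ^ 2 + 1))) (by norm_num) (by positivity),
    key (1 / 4) (e / (2 * Kc)) (by norm_num) (by positivity),
    key δ (e * η / (2 * Kc)) hδ (by positivity),
    key (7 / 8) (η / 2 / (4 * (H * Bd + 1))) (by norm_num) (by positivity)] with N h1 h2 h3 h4 h5 h6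
  have hN0 : (0 : ℝ) < N := by exact_mod_cast (by omega : 0 < N)
  have q1 : (0 : ℝ) < (N : ℝ) ^ (1 / 4 : ℝ) := by positivity
  have q2 : (0 : ℝ) < (N : ℝ) ^ (1 / 8 : ℝ) := by positivity
  have q3 : (N : ℝ) ^ (1 / 4 : ℝ) * (N : ℝ) ^ (-(1 / 4) : ℝ) = 1 := by
    rw [← Real.rpow_add hN0]
    simp
  have a1 : (H * Bd + H + 1 : ℝ) ≤ (N : ℝ) ^ (1 / 4 : ℝ) / 2 := by
    rw [le_div_iff₀ (by positivity)] at h2
    nlinarith
  have a0 : (0 : ℝ) ≤ (H : ℝ) * Bd := by positivity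
  have a0' : (0 : ℝ) ≤ (H : ℝ) := by positivity
  refine ⟨h1, by linarith, ?_, ?_, ?_⟩
  · have e1 : (N : ℝ) ^ (1 / 8 : ℝ) = (N : ℝ) ^ (1 / 4 : ℝ) * (N : ℝ) ^ (-(1 / 8) : ℝ) := by
      rw [← Real.rpow_add hN0]
      congr 1
      norm_num
    rw [le_div_iff₀ (by positivity)] at h3
    have e3 : (0 : ℝ) ≤ (N : ℝ) ^ (-(1 / 8) : ℝ) := by positivity
    have e4 : ((H : ℝ) * Bd + 1) * H ^ 2 * (N : ℝ) ^ (-(1 / 8) : ℝ) ≤ 1 / 4 := by nlinarith
    have e5 : ((H : ℝ) * Bd + 1) * (2 * (N : ℝ) ^ (1 / 8 : ℝ)) * H ^ 2 ≤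
        (N : ℝ) ^ (1 / 4 : ℝ) / 2 := by
      rw [e1]
      nlinarith
    linarith
  · calc ((N : ℝ) ^ (-(1 / 4) : ℝ) + (1 / η) * (N : ℝ) ^ (-δ)) * Kc
        ≤ (e / (2 * Kc) + 1 / η * (e * η / (2 * Kc))) * Kc := by gcongr
      _ = e := by field_simp; ring
  · have e1 : (N : ℝ) ^ (1 / 8 : ℝ) = N * (N : ℝ) ^ (-(7 / 8) : ℝ) := by
      rw [← Real.rpow_one_add' hN0.le (by norm_num)]
      congr 1
      norm_num
    rw [e1]
    rw [le_div_iff₀ (by positivity)] at h6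
    push_cast
    nlinarith

/-- two primes -/
theorem kar2 (H Bd : ℕ) {η δ : ℝ} (hη : 0 < η) (hδ : 0 < δ) : ∃ N1 : ℕ, ∀ N : ℕ, N1 ≤ N →
    ∀ p p' : ℕ, ∀ _ : Fact p.Prime, ∀ _ : Fact p'.Prime, p ≠ p' →
    (N : ℝ) ^ (1 / 4 : ℝ) ≤ p → (N : ℝ) ^ (1 / 4 : ℝ) ≤ p' →
    (p : ℝ) ≤ (N : ℝ) ^ (1 - δ) → (p' : ℝ) ≤ (N : ℝ) ^ (1 - δ) →
    ∀ (χ : DirichletCharacter ℂ p) (χ' : DirichletCharacter ℂ p'), χ ≠ 1 → χ' ≠ 1 →
    ∀ r : ℕ, 1 ≤ r → r ≤ H → ∀ (c c' : Fin r → Bool) (A C : Fin r → ℕ),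
    (∀ l, 1 ≤ A l ∧ A l ≤ H) → (∀ l, C l ≤ Bd) →
    (∀ l l', l ≠ l' → A l * C l' ≠ A l' * C l) → ∀ x : ℕ, x ≤ N →
    ‖∑ t ∈ range x, (∏ l, cj (c l) (χ ((A l * t + C l : ℕ) : ZMod p))) *
      ∏ l, cj (c' l) (χ' ((A l * t + C l : ℕ) : ZMod p'))‖ ≤ η * N := by
  obtain ⟨R, hR⟩ : ∃ R : ℕ, R = 2 * 8 * H := ⟨_, rfl⟩
  obtain ⟨B, hB⟩ : ∃ B : ℝ, B = (22 * (R + 1)) * (22 * (R + 1)) := ⟨_, rfl⟩
  have hB0 : 0 ≤ B := by rw [hB]; positivity
  obtain ⟨N1, hN1⟩ := eventually_atTop.1 (large2 H Bd hη hδ (e := (η / 2) ^ (2 * 8))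
    (Kc := ((8 : ℕ) : ℝ) ^ (2 * 8) + B) (by positivity) (by positivity))
  refine ⟨N1, ?_⟩
  intro N hN p p' hpf hpf' hpp hp1 hp1' hp2 hp2' χ χ' hχ hχ' r hr hrH c c' A C hA hC hne x hx
  obtain ⟨h1, h2, h3, h4, h5⟩ := hN1 N hN
  have hN0 : (0 : ℝ) < N := by exact_mod_cast (by omega : 0 < N)
  have hN1' : (1 : ℝ) ≤ N := by exact_mod_cast h1
  have hpP : p.Prime := hpf.out
  have hpP' : p'.Prime := hpf'.out
  have hp0 : (0 : ℝ) < p := by exact_mod_cast hpP.pos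
  have hp0' : (0 : ℝ) < p' := by exact_mod_cast hpP'.pos
  obtain ⟨g, hg⟩ : ∃ g : ℕ → ℂ, g = fun t => (∏ l, cj (c l) (χ ((A l * t + C l : ℕ) : ZMod p))) *
      ∏ l, cj (c' l) (χ' ((A l * t + C l : ℕ) : ZMod p')) := ⟨_, rfl⟩
  have hgb : ∀ t, ‖g t‖ ≤ 1 := by
    intro t
    rw [hg]
    simp only
    rw [norm_mul, norm_prod, norm_prod]
    refine mul_le_one₀ (prod_le_one (fun _ _ => norm_nonneg _) fun l _ => ?_)
      (prod_nonneg fun _ _ => norm_nonneg _) (prod_le_one (fun _ _ => norm_nonneg _) fun l _ => ?_)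
    · rw [cj_norm]
      exact DirichletCharacter.norm_le_one χ _
    · rw [cj_norm]
      exact DirichletCharacter.norm_le_one χ' _
  have hgoal : ‖∑ t ∈ range x, g t‖ ≤ η * N := by
    by_cases hxs : (x : ℝ) ≤ η * N
    · refine (norm_sum_le _ _).trans ((sum_le_sum fun t _ => hgb t).trans ?_)
      rw [sum_const, card_range, nsmul_eq_mul, mul_one]
      exact hxs
    push Not at hxs
    have hx0 : (0 : ℝ) < x := lt_of_le_of_lt (by positivity) hxs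
    have hx1 : 1 ≤ x := by
      have : 0 < x := by exact_mod_cast hx0
      omega
    obtain ⟨K, hK⟩ : ∃ K : ℕ, K = ⌈(N : ℝ) ^ (1 / 8 : ℝ)⌉₊ := ⟨_, rfl⟩
    have hK1 : (N : ℝ) ^ (1 / 8 : ℝ) ≤ K := by rw [hK]; exact Nat.le_ceil _
    have hK2 : (K : ℝ) ≤ 2 * (N : ℝ) ^ (1 / 8 : ℝ) := by
      have e1 : (K : ℝ) < (N : ℝ) ^ (1 / 8 : ℝ) + 1 := by
        rw [hK]
        exact Nat.ceil_lt_add_one (by positivity)
      have e2 : (1 : ℝ) ≤ (N : ℝ) ^ (1 / 8 : ℝ) := Real.one_le_rpow hN1' (by norm_num)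
      linarith
    -- the modulus
    have hMle : ((p * p' : ℕ) : ℝ) ≤ (N : ℝ) ^ (2 - 2 * δ) := by
      push_cast
      calc (p : ℝ) * p' ≤ (N : ℝ) ^ (1 - δ) * (N : ℝ) ^ (1 - δ) := by gcongr
        _ = (N : ℝ) ^ (2 - 2 * δ) := by
            rw [← Real.rpow_add hN0]
            congr 1
            ring
    have hMge : (N : ℝ) ^ (1 / 2 : ℝ) ≤ ((p * p' : ℕ) : ℝ) := by
      push_cast
      calc (N : ℝ) ^ (1 / 2 : ℝ) = (N : ℝ) ^ (1 / 4 : ℝ) * (N : ℝ) ^ (1 / 4 : ℝ) := by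
            rw [← Real.rpow_add hN0]
            congr 1
            norm_num
        _ ≤ p * p' := by gcongr
    have hMK : ((p * p' : ℕ) : ℝ) ≤ (K : ℝ) ^ (2 * 8) := by
      calc ((p * p' : ℕ) : ℝ) ≤ (N : ℝ) ^ (2 - 2 * δ) := hMle
        _ ≤ (N : ℝ) ^ (2 : ℝ) := Real.rpow_le_rpow_of_exponent_le hN1' (by linarith)
        _ = ((N : ℝ) ^ (1 / 8 : ℝ)) ^ (2 * 8) := by
            rw [← Real.rpow_natCast, ← Real.rpow_mul hN0.le]
            congr 1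
            norm_num
        _ ≤ (K : ℝ) ^ (2 * 8) := by gcongr
    have hs1 : √((p * p' : ℕ) : ℝ) ≤ (N : ℝ) ^ (1 - δ) := by
      refine Real.sqrt_le_iff.2 ⟨by positivity, hMle.trans (le_of_eq ?_)⟩
      rw [← Real.rpow_natCast, ← Real.rpow_mul hN0.le]
      congr 1
      push_cast
      ring
    have hs2 : (N : ℝ) ^ (1 / 4 : ℝ) ≤ √((p * p' : ℕ) : ℝ) := by
      refine Real.le_sqrt_of_sq_le (le_trans (le_of_eq ?_) hMge)
      rw [← Real.rpow_natCast, ← Real.rpow_mul hN0.le]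
      congr 1
      norm_num
    have hsp : 0 < √((p * p' : ℕ) : ℝ) := lt_of_lt_of_le (by positivity) hs2
    have hsm : (1 / √((p * p' : ℕ) : ℝ) + √((p * p' : ℕ) : ℝ) / x) *
        (((8 : ℕ) : ℝ) ^ (2 * 8) + B) ≤ (η / 2) ^ (2 * 8) := by
      refine le_trans ?_ h4
      refine mul_le_mul_of_nonneg_right (add_le_add ?_ ?_) (by positivity)
      · rw [Real.rpow_neg hN0.le, ← one_div]
        exact one_div_le_one_div_of_le (by positivity) hs2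
      · rw [div_le_iff₀ hx0]
        calc √((p * p' : ℕ) : ℝ) ≤ (N : ℝ) ^ (1 - δ) := hs1
          _ = 1 / η * (N : ℝ) ^ (-δ) * (η * N) := by
              rw [show (1 - δ) = -δ + 1 by ring, Real.rpow_add hN0, Real.rpow_one]
              field_simp
          _ ≤ 1 / η * (N : ℝ) ^ (-δ) * x := by gcongr
    -- injectivity
    have hHp : ∀ P : ℕ, (N : ℝ) ^ (1 / 4 : ℝ) ≤ P → H < P := by
      intro P hP
      exact_mod_cast h2.trans_le hP
    have hsmall : ∀ P : ℕ, (N : ℝ) ^ (1 / 4 : ℝ) ≤ P → H * Bd + 1 * (H * Bd + 1) * K * H ^ 2 < P := by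
      intro P hP
      have e1 : ((H * Bd + 1 * (H * Bd + 1) * K * H ^ 2 : ℕ) : ℝ) < P := by
        refine lt_of_lt_of_le (lt_of_le_of_lt ?_ h3) hP
        push_cast
        rw [one_mul]
        gcongr
      exact_mod_cast e1
    have hAz : ∀ (P : ℕ), H < P → ∀ l, (A l : ZMod P) ≠ 0 := fun P hP l h => by
      have h7 := Nat.le_of_dvd (hA l).1 ((ZMod.natCast_eq_zero_iff _ _).1 h)
      have := (hA l).2
      omega
    have hshape : ∀ t, g t = gg χ c (fun l => (A l : ZMod p) * (1 : ℕ))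
        (fun l => (A l : ZMod p) * (0 : ℕ) + C l) (t : ZMod p) *
        gg χ' c' (fun l => (A l : ZMod p') * (1 : ℕ))
        (fun l => (A l : ZMod p') * (0 : ℕ) + C l) (t : ZMod p') := by
      intro t
      rw [hg]
      simp only
      unfold gg
      congr 1
      · refine prod_congr rfl fun l _ => ?_
        congr 2
        push_cast
        ring
      · refine prod_congr rfl fun l _ => ?_
        congr 2
        push_cast
        ring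
    have hinj : ∀ P : ℕ, ∀ _ : Fact P.Prime, (N : ℝ) ^ (1 / 4 : ℝ) ≤ P →
        ∀ (l l' : Fin r) (n n' : Fin K),
        -((A l : ZMod P) * (0 : ℕ) + C l) / ((A l : ZMod P) * (1 : ℕ)) -
          ((1 * (H * Bd + 1) : ℕ) : ZMod P) * ((n : ℕ) : ZMod P) =
        -((A l' : ZMod P) * (0 : ℕ) + C l') / ((A l' : ZMod P) * (1 : ℕ)) -
          ((1 * (H * Bd + 1) : ℕ) : ZMod P) * ((n' : ℕ) : ZMod P) → l = l' ∧ n = n' := by
      intro P hP hPN l l' n n' h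
      exact inj_roots A C hA hC hne 1 0 (fun h => hP.out.one_lt.ne' (Nat.dvd_one.1 h)) 1 1
        one_ne_zero (by simp) (hHp P hPN) 1 (by simp) (hsmall P hPN) l l' n n' h
    have hfin := shortN (M := p * p') (k := 8) (K := K) (by norm_num)
      (Nat.mul_pos hpP.pos hpP'.pos) g (fun s => by
        rw [hshape, hshape]
        congr 2
        · push_cast
          simp
        · push_cast
          simp) hgb (1 * (H * Bd + 1)) (B := B) hB0 (fun ν n hn => by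
        have e1 := Pool.H75.QT.word2 hpp (wb χ hχ R) (wb χ' hχ' R) (k := 8) (M := K)
          (by rw [hR]; exact Nat.mul_le_mul_left _ hrH) hr c c'
          (fun l => (A l : ZMod p) * (1 : ℕ)) (fun l => (A l : ZMod p) * (0 : ℕ) + C l)
          (fun l => (A l : ZMod p') * (1 : ℕ)) (fun l => (A l : ZMod p') * (0 : ℕ) + C l)
          (fun l => by simpa using hAz p (hHp p hp1) l)
          (fun l => by simpa using hAz p' (hHp p' hp1') l) (1 * (H * Bd + 1))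
          (hinj p hpf hp1) (hinj p' hpf' hp1') ν n hn
        simp only [hshape]
        refine e1.trans (le_of_eq ?_)
        rw [hB]
        push_cast
        rw [Real.sqrt_mul hp0.le]
        ring) hMK hx1 (η := η / 2) (by positivity) hsm
    refine hfin.trans ?_
    have e1 : (x : ℝ) ≤ N := by exact_mod_cast hx
    have e2 : 2 * ((1 * (H * Bd + 1) : ℕ) : ℝ) * K ≤ η / 2 * N := by
      refine le_trans ?_ h5
      rw [one_mul]
      gcongr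
    have e3 : η / 2 * (x : ℝ) ≤ η / 2 * N := by gcongr
    linarith
  rw [hg] at hgoal
  exact hgoal

end Pool.H37.PP
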