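import Mathlib
import Pool.Agent.H37.PP.Asm
import Pool.Agent.H37.PP.Kd

/-!
# Pairs: primitive characters of conductor `≤ c √N`, or of prime conductor `≤ N ^ (1 - δ)`
-/

set_option autoImplicit false

namespace Pool.H37.PP

open Finset Pool.H2.EL Pool.Agent.H18.QT

lemma conj_prod_cj {r : ℕ} (b : Fin r → Bool) (u : Fin r → ℂ) :
    (starRingEnd ℂ) (∏ l, cj (b l) (u l)) = ∏ l, cj (!(b l)) (u l) := by
  rw [map_prod]
  refine prod_congr rfl fun l _ => ?_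
  unfold cj
  cases b l <;> simp

lemma prim_ne_one {p : ℕ} (hp : 1 < p) {χ : DirichletCharacter ℂ p} (h : χ.IsPrimitive) :
    χ ≠ 1 := by
  have : NeZero p := ⟨by omega⟩
  intro h1
  rw [h1] at h
  have h2 : (1 : DirichletCharacter ℂ p).conductor = p := h
  rw [DirichletCharacter.conductor_one] at h2
  omega

lemma small_large {N q : ℕ} {δ : ℝ} (hδ : 0 < δ) (hN : 1 ≤ N)
    (hq : (q : ℝ) ≤ (N : ℝ) ^ (1 - δ)) : (q : ℝ) ^ (1 / 2 + δ / 2) ≤ (N : ℝ) ^ (1 / 2 : ℝ) := by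
  have hN0 : (0 : ℝ) < N := by exact_mod_cast (by omega : 0 < N)
  have hN1 : (1 : ℝ) ≤ N := by exact_mod_cast hN
  calc (q : ℝ) ^ (1 / 2 + δ / 2) ≤ ((N : ℝ) ^ (1 - δ)) ^ (1 / 2 + δ / 2) :=
        Real.rpow_le_rpow (Nat.cast_nonneg q) hq (by positivity)
    _ = (N : ℝ) ^ ((1 - δ) * (1 / 2 + δ / 2)) := by rw [← Real.rpow_mul hN0.le]
    _ ≤ (N : ℝ) ^ (1 / 2 : ℝ) := Real.rpow_le_rpow_of_exponent_le hN1 (by nlinarith [sq_nonneg δ])

theorem pairB (H h0 : ℕ) {η δ : ℝ} (hη : 0 < η) (hδ : 0 < δ) :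
    ∃ F P N1 : ℕ, ∀ N : ℕ, N1 ≤ N → ∀ z z' : Σ q : ℕ, DirichletCharacter ℂ q,
    (z.1 ≠ 0 ∧ z.2.IsPrimitive ∧ (P * z.1 ^ 2 ≤ N ∨ (z.1.Prime ∧ (z.1 : ℝ) ≤ (N : ℝ) ^ (1 - δ)))) →
    (z'.1 ≠ 0 ∧ z'.2.IsPrimitive ∧
      (P * z'.1 ^ 2 ≤ N ∨ (z'.1.Prime ∧ (z'.1 : ℝ) ≤ (N : ℝ) ^ (1 - δ)))) →
    ¬ Close F z z' →
    ∀ r : ℕ, 1 ≤ r → r ≤ H → ∀ (b : Fin r → Bool) (α β : Fin r → ℕ),
    (∀ l, 1 ≤ α l ∧ α l ≤ H) → (∀ l, β l ≤ H) →
    (∀ l l', l ≠ l' → α l * (β l' + h0) ≠ α l' * (β l + h0)) → ∀ x : ℕ, x ≤ N →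
    ‖∑ t ∈ range x, (∏ l, cj (b l) (z.2 ((α l * t + (β l + h0) : ℕ) : ZMod z.1))) *
      (starRingEnd ℂ) (∏ l, cj (b l) (z'.2 ((α l * t + (β l + h0) : ℕ) : ZMod z'.1)))‖ ≤ η * N := by
  classical
  obtain ⟨F0, P0, hA⟩ := pairA H h0 hη
  obtain ⟨R, P1, hkar⟩ := kar H (H + h0) hη (δ := δ / 2) (by positivity)
  obtain ⟨N2, hkar2⟩ := kar2 H (H + h0) hη hδ
  refine ⟨F0 + 1, P0 + 1, N2 + (P0 + 1) ^ 2 + P1 ^ 4 + 1, ?_⟩
  intro N hN z z' hz hz' hfar r hr hrH b α β hα hβ hfr x hx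
  obtain ⟨hz0, hzp, hzc⟩ := hz
  obtain ⟨hz0', hzp', hzc'⟩ := hz'
  have hN1 : 1 ≤ N := by omega
  have hN0 : (0 : ℝ) < N := by exact_mod_cast (by omega : 0 < N)
  have hN1' : (1 : ℝ) ≤ N := by exact_mod_cast hN1
  have hβ' : ∀ l, β l + h0 ≤ H + h0 := fun l => by have := hβ l; omega
  -- large conductors
  have hlarge : ∀ q : ℕ, ¬ (P0 + 1) * q ^ 2 ≤ N → (N : ℝ) ^ (1 / 4 : ℝ) ≤ q ∧ P1 ≤ q := by
    intro q hq
    have e1 : (N : ℝ) ≤ (P0 + 1) * (q : ℝ) ^ 2 := by exact_mod_cast (not_le.1 hq).le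
    have e2 : ((P0 : ℝ) + 1) ≤ (N : ℝ) ^ (1 / 2 : ℝ) := by
      rw [← Real.sqrt_eq_rpow]
      refine Real.le_sqrt_of_sq_le ?_
      exact_mod_cast (by omega : (P0 + 1) ^ 2 ≤ N)
    have e3 : (N : ℝ) ^ (1 / 2 : ℝ) * (N : ℝ) ^ (1 / 2 : ℝ) = N := by
      rw [← Real.rpow_add hN0]
      norm_num
    have e4 : (N : ℝ) ^ (1 / 2 : ℝ) ≤ (q : ℝ) ^ 2 := by
      have e5 : (0 : ℝ) < (N : ℝ) ^ (1 / 2 : ℝ) := by positivity
      have e6 : (N : ℝ) ^ (1 / 2 : ℝ) * (N : ℝ) ^ (1 / 2 : ℝ) ≤ (N : ℝ) ^ (1 / 2 : ℝ) * (q : ℝ) ^ 2 := by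
        rw [e3]
        exact e1.trans (mul_le_mul_of_nonneg_right e2 (by positivity))
      exact le_of_mul_le_mul_left e6 e5
    have e7 : (N : ℝ) ^ (1 / 4 : ℝ) ≤ q := by
      have e8 : ((N : ℝ) ^ (1 / 4 : ℝ)) ^ 2 ≤ (q : ℝ) ^ 2 := by
        refine le_trans (le_of_eq ?_) e4
        rw [← Real.rpow_natCast, ← Real.rpow_mul hN0.le]
        congr 1
        norm_num
      exact le_of_pow_le_pow_left₀ two_ne_zero (Nat.cast_nonneg q) e8
    refine ⟨e7, ?_⟩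
    have e9 : (P1 : ℝ) ≤ (N : ℝ) ^ (1 / 4 : ℝ) := by
      have e10 : (P1 : ℝ) ^ 4 ≤ ((N : ℝ) ^ (1 / 4 : ℝ)) ^ 4 := by
        rw [← Real.rpow_natCast ((N : ℝ) ^ (1 / 4 : ℝ)), ← Real.rpow_mul hN0.le]
        norm_num
        exact_mod_cast (by omega : P1 ^ 4 ≤ N)
      exact le_of_pow_le_pow_left₀ four_ne_zero (by positivity) e10
    exact_mod_cast e9.trans e7
  -- one small, one large
  have hmixed : ∀ z z' : Σ q : ℕ, DirichletCharacter ℂ q, z.1 ≠ 0 → (P0 + 1) * z.1 ^ 2 ≤ N →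
      ¬ (P0 + 1) * z'.1 ^ 2 ≤ N → z'.1.Prime → (z'.1 : ℝ) ≤ (N : ℝ) ^ (1 - δ) →
      z'.2.IsPrimitive →
      ‖∑ t ∈ range x, (∏ l, cj (b l) (z.2 ((α l * t + (β l + h0) : ℕ) : ZMod z.1))) *
        (starRingEnd ℂ) (∏ l, cj (b l) (z'.2 ((α l * t + (β l + h0) : ℕ) : ZMod z'.1)))‖ ≤
        η * N := by
    intro z z' h0z hs hl hp hle hprim
    have hpf : Fact z'.1.Prime := ⟨hp⟩
    obtain ⟨-, hP1⟩ := hlarge _ hl
    have hlt : z.1 < z'.1 := by
      by_contra hcc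
      push Not at hcc
      exact hl ((Nat.mul_le_mul_left _ (Nat.pow_le_pow_left hcc 2)).trans hs)
    have hq2 : z.1 ^ 2 ≤ N := by nlinarith
    have h1 := hkar z'.1 hpf hP1 z'.2 (wb z'.2 (prim_ne_one hp.one_lt hprim) R) z.1
      (Nat.pos_of_ne_zero h0z) (fun h => by
        have := Nat.le_of_dvd (Nat.pos_of_ne_zero h0z) h
        omega) N (by
        have e1 := small_large hδ hN1 hle
        have e2 : (z.1 : ℝ) ≤ (N : ℝ) ^ (1 / 2 : ℝ) := by
          rw [← Real.sqrt_eq_rpow]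
          refine Real.le_sqrt_of_sq_le ?_
          exact_mod_cast hq2
        calc (z.1 : ℝ) * (z'.1 : ℝ) ^ (1 / 2 + δ / 2) ≤
              (N : ℝ) ^ (1 / 2 : ℝ) * (N : ℝ) ^ (1 / 2 : ℝ) := by gcongr
          _ = N := by
              rw [← Real.rpow_add hN0]
              norm_num)
      (fun t => ∏ l, cj (b l) (z.2 ((α l * t + (β l + h0) : ℕ) : ZMod z.1))) (fun t => by
        refine prod_congr rfl fun l _ => ?_
        congr 2
        push_cast
        simp) (fun t => by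
        rw [norm_prod]
        refine prod_le_one (fun _ _ => norm_nonneg _) fun l _ => ?_
        rw [cj_norm]
        exact DirichletCharacter.norm_le_one _ _) r hr hrH (fun l => !(b l)) α
      (fun l => β l + h0) hα hβ' hfr x hx
    refine le_trans (le_of_eq ?_) h1
    congr 1
    exact sum_congr rfl fun t _ => by rw [conj_prod_cj]
  by_cases hs : (P0 + 1) * z.1 ^ 2 ≤ N
  · by_cases hs' : (P0 + 1) * z'.1 ^ 2 ≤ N
    · -- both small
      obtain ⟨f, hf, ψ, hψ, hag⟩ := Pool.Agent.H75.QT.quotient hz0 hz0' z.2 z'.2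
      have hFf : F0 < f := by
        by_contra hcc
        push Not at hcc
        exact hfar ⟨⟨f, ψ⟩, hcc.trans (Nat.le_succ _), hag⟩
      have hqq : P0 * (z.1 * z'.1) ≤ N := by
        rcases le_total z.1 z'.1 with h | h
        · refine le_trans ?_ hs'
          rw [sq]
          exact Nat.mul_le_mul (Nat.le_succ _) (Nat.mul_le_mul_right _ h)
        · refine le_trans ?_ hs
          rw [sq]
          exact Nat.mul_le_mul (Nat.le_succ _) (Nat.mul_le_mul_left _ h)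
      exact hA _ _ _ _ _ (Nat.mul_ne_zero hz0 hz0') (fun _ h => h) (fun _ h => h) f hf ψ hψ hag hFf
        N hqq r hr hrH b α β hα hβ hfr x hx
    · obtain ⟨hp', hle'⟩ := hzc'.resolve_left hs'
      exact hmixed z z' hz0 hs hs' hp' hle' hzp'
  · obtain ⟨hp, hle⟩ := hzc.resolve_left hs
    by_cases hs' : (P0 + 1) * z'.1 ^ 2 ≤ N
    · refine le_trans (le_of_eq ?_) (hmixed z' z hz0' hs' hs hp hle hzp)
      rw [← RCLike.norm_conj, map_sum]
      congr 1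
      refine sum_congr rfl fun t _ => ?_
      rw [map_mul, Complex.conj_conj, mul_comm]
    · obtain ⟨hp', hle'⟩ := hzc'.resolve_left hs'
      obtain ⟨hq4, hqP1⟩ := hlarge _ hs
      obtain ⟨hq4', hqP1'⟩ := hlarge _ hs'
      by_cases hne : z.1 = z'.1
      · -- the same prime
        obtain ⟨q, χ⟩ := z
        obtain ⟨q', χ'⟩ := z'
        simp only at hne
        subst hne
        simp only at hp hle hqP1 hfar ⊢
        have hpf : Fact q.Prime := ⟨hp⟩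
        have hNe : NeZero q := ⟨hp.ne_zero⟩
        obtain ⟨ψ, hψ⟩ : ∃ ψ : DirichletCharacter ℂ q, ψ = χ * χ'⁻¹ := ⟨_, rfl⟩
        have hval : ∀ n : ℕ, χ (n : ZMod q) * (starRingEnd ℂ) (χ' (n : ZMod q)) =
            ψ (n : ZMod q) := by
          intro n
          rw [hψ, MulChar.mul_apply, conj_chi]
        have hψ1 : ψ ≠ 1 := by
          intro h1
          refine hfar ⟨⟨1, 1⟩, by simp, fun n hn => ?_⟩
          show χ (n : ZMod q) * (starRingEnd ℂ) (χ' (n : ZMod q)) =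
            (1 : DirichletCharacter ℂ 1) (n : ZMod 1)
          rw [hval, h1]
          have hnq : n.Coprime q := Nat.Coprime.coprime_mul_right_right hn
          have h2 := MulChar.one_apply_coe (R' := ℂ) (ZMod.unitOfCoprime n hnq)
          rw [ZMod.coe_unitOfCoprime] at h2
          rw [h2]
          have h3 : (n : ZMod 1) = 1 := Subsingleton.elim _ _
          rw [h3, map_one]
        have h1 := hkar q hpf hqP1 ψ (wb ψ hψ1 R) 1 one_pos
          (fun h => hp.one_lt.ne' (Nat.dvd_one.1 h)) N (by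
            have e1 := small_large hδ hN1 hle
            rw [Nat.cast_one, one_mul]
            refine e1.trans ?_
            calc (N : ℝ) ^ (1 / 2 : ℝ) ≤ (N : ℝ) ^ (1 : ℝ) :=
                  Real.rpow_le_rpow_of_exponent_le hN1' (by norm_num)
              _ = N := Real.rpow_one _) (fun _ => 1) (fun _ => rfl) (fun _ => by simp) r hr hrH b α
          (fun l => β l + h0) hα hβ' hfr x hx
        refine le_trans (le_of_eq ?_) h1
        congr 1
        refine sum_congr rfl fun t _ => ?_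
        rw [one_mul, map_prod, ← prod_mul_distrib]
        refine prod_congr rfl fun l _ => ?_
        have e1 : (starRingEnd ℂ) (cj (b l) (χ' ((α l * t + (β l + h0) : ℕ) : ZMod q))) =
            cj (b l) ((starRingEnd ℂ) (χ' ((α l * t + (β l + h0) : ℕ) : ZMod q))) := by
          unfold cj
          cases b l <;> simp
        rw [e1, ← cj_mul', hval]
      · have h1 := hkar2 N (by omega) z.1 z'.1 ⟨hp⟩ ⟨hp'⟩ hne hq4 hq4' hle hle' z.2 z'.2
          (prim_ne_one hp.one_lt hzp) (prim_ne_one hp'.one_lt hzp') r hr hrH b (fun l => !(b l)) α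
          (fun l => β l + h0) hα hβ' hfr x hx
        refine le_trans (le_of_eq ?_) h1
        congr 1
        exact sum_congr rfl fun t _ => by rw [conj_prod_cj]

end Pool.H37.PP
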