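import Mathlib
import Pool.Agent.H37.PP.PairB
import Pool.Agent.H33.QT.PrimB

/-!
# Primitive characters of conductor `q`, `P q² ≤ N` or `q` prime, `q ≤ N ^ (1 - δ)`
-/

set_option autoImplicit false

namespace Pool.H37.PP

open Finset Pool.H2.EL Pool.Agent.H18.QT Pool.Agent.H33.QT

theorem primC (k : ℕ) (h : Fin k → ℤ) (j : Fin k) (hne : ∀ i, i ≠ j → h i ≠ h j) {ε δ : ℝ}
    (hε : 0 < ε) (hδ : 0 < δ) :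
    ∃ K P : ℕ, ∀ N : ℕ, ∀ S : Finset (Fin k), j ∉ S →
      ∀ d : Fin k → ArithmeticFunction ℂ, (∀ i n, ‖d i n‖ ≤ 1) →
      ∃ E : Finset (Σ q : ℕ, DirichletCharacter ℂ q), E.card ≤ K ∧ ∀ q : ℕ, q ≠ 0 →
      (P * q ^ 2 ≤ N ∨ (q.Prime ∧ (q : ℝ) ≤ (N : ℝ) ^ (1 - δ))) →
      ∀ χ : DirichletCharacter ℂ q, χ.IsPrimitive → ⟨q, χ⟩ ∉ E →
      ∀ G : Fin k → ArithmeticFunction ℂ, (∀ i n, ‖G i n‖ ≤ 1) →
      (∀ i ∈ S, (G i).IsMultiplicative) → (∀ i, i ∉ S → i ≠ j → G i = d i) →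
      (∀ n : ℕ, G j n = d j n * χ (n : ZMod q)) →
      ‖(1 / (N : ℂ)) * ∑ n ∈ Icc 1 N, ∏ i, G i ((n : ℤ) + h i).toNat‖ ≤ ε := by
  obtain ⟨K, P, hKP⟩ := primB hδ.le (fun H h0 η hη => pairB H h0 hη hδ) k h j hne hε
  refine ⟨K, P, fun N S hS d hd => ?_⟩
  obtain ⟨E, hE, hE2⟩ := hKP N S hS d hd
  exact ⟨E, hE, fun q hq hqN χ hχ hχE G hG hGS hGd hGj =>
    hE2 q χ ⟨hq, hχ, hqN⟩ hχE G hG hGS hGd hGj⟩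

end Pool.H37.PP
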