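import Mathlib
import Pool.Agent.H2.EL.Def

/-!
# [H37 PP Slo] the products of the `n ^ (i τ)` are slowly varying
-/

set_option autoImplicit false

namespace Pool.H37.PP

open Finset Pool.H2.EL

/-- `x ^ (i τ)` as an exponential -/
private lemma pw {x : ℕ} (hx : 1 ≤ x) (τ : ℝ) :
    (x : ℂ) ^ ((τ : ℂ) * Complex.I) = Complex.exp (Complex.I * ((τ * Real.log x : ℝ) : ℂ)) := by
  have h0 : (x : ℂ) ≠ 0 := by exact_mod_cast (by omega : x ≠ 0)
  rw [Complex.cpow_def_of_ne_zero h0, ← Complex.natCast_log]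
  congr 1
  push_cast
  ring

/-- each factor has norm at most one -/
theorem slow_norm1 {x : ℕ} (hx : 1 ≤ x) (τ : ℝ) : ‖(x : ℂ) ^ ((τ : ℂ) * Complex.I)‖ ≤ 1 := by
  rw [pw hx, mul_comm, Complex.norm_exp_ofReal_mul_I]

/-- the product has norm at most one -/
theorem slow_norm {r : ℕ} (b : Fin r → Bool) (x : Fin r → ℕ) (hx : ∀ l, 1 ≤ x l) (τ : ℝ) :
    ‖∏ l, cj (b l) ((x l : ℂ) ^ ((τ : ℂ) * Complex.I))‖ ≤ 1 := by
  rw [norm_prod]
  refine prod_le_one (fun _ _ => norm_nonneg _) fun l _ => ?_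
  rw [cj_norm]
  exact slow_norm1 (hx l) τ

private lemma exp_sub (x y : ℝ) :
    ‖Complex.exp (Complex.I * (x : ℂ)) - Complex.exp (Complex.I * (y : ℂ))‖ ≤ |x - y| := by
  have h1 : Complex.exp (Complex.I * (x : ℂ)) - Complex.exp (Complex.I * (y : ℂ)) =
      Complex.exp (Complex.I * (y : ℂ)) * (Complex.exp (Complex.I * ((x - y : ℝ) : ℂ)) - 1) := by
    rw [mul_sub, ← Complex.exp_add, mul_one]
    congr 2
    push_cast
    ring
  rw [h1, norm_mul, mul_comm Complex.I (y : ℂ), Complex.norm_exp_ofReal_mul_I, one_mul]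
  exact (Real.norm_exp_I_mul_ofReal_sub_one_le).trans (by rw [Real.norm_eq_abs])

private lemma pw_sub {x y : ℕ} (hx : 1 ≤ x) (hy : 1 ≤ y) (τ : ℝ) :
    ‖(x : ℂ) ^ ((τ : ℂ) * Complex.I) - (y : ℂ) ^ ((τ : ℂ) * Complex.I)‖ ≤
      |τ| * |Real.log x - Real.log y| := by
  rw [pw hx, pw hy]
  refine (exp_sub _ _).trans (le_of_eq ?_)
  rw [← mul_sub, abs_mul]

private lemma cj_sub' (b : Bool) (z w : ℂ) : ‖cj b z - cj b w‖ = ‖z - w‖ := by
  unfold cj
  cases b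
  · simp only [Bool.false_eq_true, if_false]
    rw [← map_sub, Complex.norm_conj]
  · simp only [if_true]

private lemma prod_sub' {ι : Type} (S : Finset ι) (a c : ι → ℂ) (ha : ∀ l, ‖a l‖ ≤ 1)
    (hc : ∀ l, ‖c l‖ ≤ 1) : ‖∏ l ∈ S, a l - ∏ l ∈ S, c l‖ ≤ ∑ l ∈ S, ‖a l - c l‖ := by
  classical
  induction S using Finset.induction_on with
  | empty => simp
  | insert i S hi ih =>
    rw [prod_insert hi, prod_insert hi, sum_insert hi]
    have h1 : a i * ∏ l ∈ S, a l - c i * ∏ l ∈ S, c l =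
        (a i - c i) * ∏ l ∈ S, a l + c i * (∏ l ∈ S, a l - ∏ l ∈ S, c l) := by ring
    rw [h1]
    refine (norm_add_le _ _).trans (add_le_add ?_ ?_)
    · rw [norm_mul]
      refine mul_le_of_le_one_right (norm_nonneg _) ?_
      rw [norm_prod]
      exact prod_le_one (fun _ _ => norm_nonneg _) fun l _ => ha l
    · rw [norm_mul]
      exact (mul_le_of_le_one_left (norm_nonneg _) (hc i)).trans ih

private lemma log_sub {A C t s : ℕ} (hA : 1 ≤ A) (hC : 1 ≤ C) (ht : 1 ≤ t) :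
    |Real.log ((A * (t + s) + C : ℕ) : ℝ) - Real.log ((A * t + C : ℕ) : ℝ)| ≤ s / t := by
  have hA0 : (1 : ℝ) ≤ A := by exact_mod_cast hA
  have hC0 : (1 : ℝ) ≤ C := by exact_mod_cast hC
  have ht0 : (1 : ℝ) ≤ t := by exact_mod_cast ht
  have hs0 : (0 : ℝ) ≤ s := Nat.cast_nonneg s
  have hy : (0 : ℝ) < A * t + C := by positivity
  have hx : (0 : ℝ) < A * (t + s) + C := by positivity
  push_cast
  have hle : (A : ℝ) * t + C ≤ A * (t + s) + C := by nlinarith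
  rw [abs_of_nonneg (sub_nonneg.2 (Real.log_le_log hy hle)), ← Real.log_div hx.ne' hy.ne']
  refine (Real.log_le_sub_one_of_pos (div_pos hx hy)).trans ?_
  rw [div_sub_one hy.ne', div_le_div_iff₀ hy (by linarith)]
  nlinarith

/-- slow variation -/
theorem slow {r : ℕ} (b : Fin r → Bool) (A C : Fin r → ℕ) (hA : ∀ l, 1 ≤ A l) (hC : ∀ l, 1 ≤ C l)
    (τ : ℝ) (t s : ℕ) (ht : 1 ≤ t) :
    ‖(∏ l, cj (b l) (((A l * (t + s) + C l : ℕ) : ℂ) ^ ((τ : ℂ) * Complex.I))) -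
      ∏ l, cj (b l) (((A l * t + C l : ℕ) : ℂ) ^ ((τ : ℂ) * Complex.I))‖ ≤ r * |τ| * (s / t) := by
  refine (prod_sub' univ _ _ (fun l => ?_) fun l => ?_).trans ?_
  · rw [cj_norm]
    exact slow_norm1 (le_add_left (hC l)) τ
  · rw [cj_norm]
    exact slow_norm1 (le_add_left (hC l)) τ
  · have h1 : ∀ l ∈ (univ : Finset (Fin r)),
        ‖cj (b l) (((A l * (t + s) + C l : ℕ) : ℂ) ^ ((τ : ℂ) * Complex.I)) -
          cj (b l) (((A l * t + C l : ℕ) : ℂ) ^ ((τ : ℂ) * Complex.I))‖ ≤ |τ| * (s / t) := by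
      intro l _
      rw [cj_sub']
      refine (pw_sub (le_add_left (hC l)) (le_add_left (hC l)) τ).trans ?_
      exact mul_le_mul_of_nonneg_left (log_sub (hA l) (hC l) ht) (abs_nonneg _)
    refine (sum_le_sum h1).trans (le_of_eq ?_)
    rw [sum_const, card_univ, Fintype.card_fin, nsmul_eq_mul]
    ring

end Pool.H37.PP
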