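import Mathlib
import Pool.Agent.H37.PP.Asm
import Pool.Agent.H37.PP.Slo
import Pool.Agent.H75.QT.Blo

/-!
# Twists by `n ^ (i τ)`

`coreT`: `core` with the factors `(A_l t + C_l) ^ (i τ)`, `N ≥ P Q m (1 + |τ|)`. `pairT`, `fixedT`.
-/

set_option autoImplicit false

namespace Pool.H37.PP

open Finset Pool.H2.EL Pool.Agent.H18.QT

lemma norm_nit {n : ℕ} (hn : 1 ≤ n) (τ : ℝ) : ‖(n : ℂ) ^ ((τ : ℂ) * Complex.I)‖ = 1 := by
  rw [Complex.norm_natCast_cpow_of_pos hn]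
  simp

theorem coreT (H Bd : ℕ) {η : ℝ} (hη : 0 < η) :
    ∃ F P : ℕ, ∀ Q : ℕ, Q ≠ 0 → ∀ f : ℕ, f ∣ Q → ∀ ψ : DirichletCharacter ℂ f,
    ψ.IsPrimitive → F < f → ∀ m : ℕ, 0 < m → m.Coprime f → ∀ (τ : ℝ) (N : ℕ),
    P * ((Q : ℝ) * m) * (1 + |τ|) ≤ N →
    ∀ v : ℕ → ℂ, (∀ t, v (t + m) = v t) → (∀ t, ‖v t‖ ≤ 1) →
    ∀ r : ℕ, 1 ≤ r → r ≤ H → ∀ (b : Fin r → Bool) (A C : Fin r → ℕ),
    (∀ l, 1 ≤ A l ∧ A l ≤ H) → (∀ l, 1 ≤ C l ∧ C l ≤ Bd) →
    (∀ l l', l ≠ l' → A l * C l' ≠ A l' * C l) → ∀ x : ℕ, x ≤ N →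
    ‖∑ t ∈ range x, v t * ∏ l, cj (b l) ((if (A l * t + C l).Coprime Q then
      ψ ((A l * t + C l : ℕ) : ZMod f) else 0) *
      ((A l * t + C l : ℕ) : ℂ) ^ ((τ : ℂ) * Complex.I))‖ ≤ η * N := by
  classical
  obtain ⟨η1, hη1⟩ : ∃ η1 : ℝ, η1 = min η 1 := ⟨_, rfl⟩
  have hη0 : 0 < η1 := by rw [hη1]; exact lt_min hη one_pos
  have hηle : η1 ≤ 1 := by rw [hη1]; exact min_le_right _ _
  have hηle' : η1 ≤ η := by rw [hη1]; exact min_le_left _ _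
  obtain ⟨F, P0, hcore⟩ := core H Bd (η := η1 / 4) (by positivity)
  obtain ⟨P, hP⟩ := exists_nat_ge (32 * (H + 1) * (P0 + 1) / η1 ^ 2)
  refine ⟨F, P, ?_⟩
  intro Q hQ0 f hfQ ψ hψ hFf m hm0 hmf τ N hN v hv hvb r hr hrH b A C hA hC hfr x hx
  obtain ⟨L, hL⟩ : ∃ L : ℕ, L = (P0 + 1) * (Q * m) := ⟨_, rfl⟩
  have hQm : 0 < Q * m := Nat.mul_pos (Nat.pos_of_ne_zero hQ0) hm0
  have hLpos : 0 < L := by rw [hL]; exact Nat.mul_pos (Nat.succ_pos _) hQm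
  obtain ⟨Fn, hFn⟩ : ∃ Fn : ℕ → ℂ, Fn = fun t => v t * ∏ l, cj (b l)
    (if (A l * t + C l).Coprime Q then ψ ((A l * t + C l : ℕ) : ZMod f) else 0) := ⟨_, rfl⟩
  obtain ⟨Φ, hΦ⟩ : ∃ Φ : ℕ → ℂ, Φ = fun t => ∏ l, cj (b l)
    (((A l * t + C l : ℕ) : ℂ) ^ ((τ : ℂ) * Complex.I)) := ⟨_, rfl⟩
  have hvm : ∀ t c, v (t + m * c) = v t := by
    intro t c
    induction c with
    | zero => rw [mul_zero, add_zero]
    | succ c ih => rw [mul_add, mul_one, ← add_assoc, hv, ih]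
  have hFper : ∀ c s, Fn (c * L + s) = Fn s := by
    intro c s
    rw [hFn]
    simp only
    have e1 : v (c * L + s) = v s := by
      rw [hL, show c * ((P0 + 1) * (Q * m)) + s = s + m * (c * (P0 + 1) * Q) by ring, hvm]
    rw [e1]
    congr 1
    refine prod_congr rfl fun l _ => ?_
    congr 1
    have e2 : A l * (c * L + s) + C l = A l * s + C l + Q * (A l * c * (P0 + 1) * m) := by
      rw [hL]
      ring
    rw [e2]
    have h1 : (A l * s + C l + Q * (A l * c * (P0 + 1) * m)).Coprime Q ↔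
        (A l * s + C l).Coprime Q := by
      rw [Nat.coprime_add_mul_left_left]
    have h2 : ((A l * s + C l + Q * (A l * c * (P0 + 1) * m) : ℕ) : ZMod f) =
        ((A l * s + C l : ℕ) : ZMod f) := by
      rw [Nat.cast_add _ (Q * _), Nat.cast_mul Q, (ZMod.natCast_eq_zero_iff Q f).2 hfQ, zero_mul,
        add_zero]
    rw [h2]
    simp only [h1]
  have hFb : ∀ t, ‖Fn t‖ ≤ 1 := by
    intro t
    rw [hFn]
    simp only
    rw [norm_mul, norm_prod]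
    refine mul_le_one₀ (hvb t) (prod_nonneg fun _ _ => norm_nonneg _)
      (prod_le_one (fun _ _ => norm_nonneg _) fun l _ => ?_)
    rw [cj_norm]
    split_ifs
    · exact DirichletCharacter.norm_le_one _ _
    · simp
  have hΦb : ∀ t, ‖Φ t‖ ≤ 1 := by
    intro t
    rw [hΦ]
    simp only
    rw [norm_prod]
    refine prod_le_one (fun _ _ => norm_nonneg _) fun l _ => ?_
    rw [cj_norm, norm_nit (by have := (hC l).1; omega)]
  have hη2 : 0 < η1 ^ 2 := by positivity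
  have hP' : 32 * ((H : ℝ) + 1) * (P0 + 1) ≤ P * η1 ^ 2 := by rwa [div_le_iff₀ hη2] at hP
  have hQm' : (0 : ℝ) < (Q : ℝ) * m := by exact_mod_cast hQm
  have hLr : (L : ℝ) = (P0 + 1) * ((Q : ℝ) * m) := by rw [hL]; push_cast; ring
  have hτ0 : 0 ≤ |τ| := abs_nonneg τ
  have hmain := Pool.H75.QT.blocks (N := N) hLpos Fn Φ hFb hΦb (η := η1) (κ := r * |τ|) hη0 hηle (by positivity)
    (fun c => by
      simp only [hFper]
      rw [hFn]
      exact hcore Q hQ0 f hfQ ψ hψ hFf m hm0 hmf L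
        (by rw [hL]; exact Nat.mul_le_mul_right _ (Nat.le_succ _)) v hv hvb r hr hrH b A C hA
        (fun l => (hC l).2) hfr L le_rfl)
    (fun t s ht => by
      rw [hΦ]
      exact slow b A C (fun l => (hA l).1) (fun l => (hC l).1) τ t s ht)
    (by
      have e1 : (r : ℝ) ≤ H := by exact_mod_cast hrH
      have e2 : (r : ℝ) * |τ| * L ≤ (H + 1) * (P0 + 1) * (((Q : ℝ) * m) * (1 + |τ|)) := by
        rw [hLr]
        calc (r : ℝ) * |τ| * ((P0 + 1) * ((Q : ℝ) * m)) ≤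
              (H + 1) * (1 + |τ|) * ((P0 + 1) * ((Q : ℝ) * m)) := by
                gcongr
                · linarith
                · linarith
          _ = (H + 1) * (P0 + 1) * (((Q : ℝ) * m) * (1 + |τ|)) := by ring
      refine e2.trans ?_
      have e3 : (0 : ℝ) ≤ ((Q : ℝ) * m) * (1 + |τ|) := by positivity
      calc ((H : ℝ) + 1) * (P0 + 1) * (((Q : ℝ) * m) * (1 + |τ|)) =
            (32 * ((H : ℝ) + 1) * (P0 + 1)) / 32 * (((Q : ℝ) * m) * (1 + |τ|)) := by ring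
        _ ≤ (P * η1 ^ 2) / 32 * (((Q : ℝ) * m) * (1 + |τ|)) := by gcongr
        _ = η1 ^ 2 / 32 * (P * ((Q : ℝ) * m) * (1 + |τ|)) := by ring
        _ ≤ η1 ^ 2 / 32 * N := by gcongr)
    (by
      rw [hLr]
      have e3 : (0 : ℝ) ≤ ((Q : ℝ) * m) * |τ| := by positivity
      have e4 : 8 * ((P0 : ℝ) + 1) ≤ P * η1 := by
        have a1 : P * η1 ^ 2 ≤ P * η1 := by
          have : η1 ^ 2 ≤ η1 := by nlinarith
          gcongr
        have a2 : (0 : ℝ) ≤ H := Nat.cast_nonneg H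
        have a3 : (0 : ℝ) ≤ P0 := Nat.cast_nonneg P0
        nlinarith [mul_nonneg a2 a3]
      calc ((P0 : ℝ) + 1) * ((Q : ℝ) * m) = (8 * ((P0 : ℝ) + 1)) / 8 * ((Q : ℝ) * m) := by ring
        _ ≤ (P * η1) / 8 * ((Q : ℝ) * m) := by gcongr
        _ ≤ (P * η1) / 8 * (((Q : ℝ) * m) * (1 + |τ|)) :=
            mul_le_mul_of_nonneg_left (by linarith) (by positivity)
        _ = η1 / 8 * (P * ((Q : ℝ) * m) * (1 + |τ|)) := by ring
        _ ≤ η1 / 8 * N := by gcongr) x hx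
  refine le_trans (le_of_eq ?_) (hmain.trans (mul_le_mul_of_nonneg_right hηle' (Nat.cast_nonneg N)))
  congr 1
  refine sum_congr rfl fun t _ => ?_
  rw [hFn, hΦ]
  simp only
  rw [mul_assoc, ← prod_mul_distrib]
  congr 1
  refine prod_congr rfl fun l _ => ?_
  rw [cj_mul']

/-- two characters, with different `τ` -/
theorem pairT (H h0 : ℕ) (hh0 : 1 ≤ h0) {η : ℝ} (hη : 0 < η) :
    ∃ F P : ℕ, ∀ N : ℕ, ∀ T : ℝ, 0 ≤ T → ∀ z z' : Σ q : ℕ, DirichletCharacter ℂ q,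
    z.1 ≠ 0 → z'.1 ≠ 0 → z.2.IsPrimitive → z'.2.IsPrimitive →
    P * (z.1 : ℝ) ^ 2 * (1 + T) ≤ N → P * (z'.1 : ℝ) ^ 2 * (1 + T) ≤ N → ¬ Close F z z' →
    ∀ τ τ' : ℝ, |τ| ≤ T → |τ'| ≤ T →
    ∀ r : ℕ, 1 ≤ r → r ≤ H → ∀ (b : Fin r → Bool) (α β : Fin r → ℕ),
    (∀ l, 1 ≤ α l ∧ α l ≤ H) → (∀ l, β l ≤ H) →
    (∀ l l', l ≠ l' → α l * (β l' + h0) ≠ α l' * (β l + h0)) → ∀ x : ℕ, x ≤ N →
    ‖∑ t ∈ range x, (∏ l, cj (b l) (z.2 ((α l * t + (β l + h0) : ℕ) : ZMod z.1) *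
      ((α l * t + (β l + h0) : ℕ) : ℂ) ^ ((τ : ℂ) * Complex.I))) *
      (starRingEnd ℂ) (∏ l, cj (b l) (z'.2 ((α l * t + (β l + h0) : ℕ) : ZMod z'.1) *
      ((α l * t + (β l + h0) : ℕ) : ℂ) ^ ((τ' : ℂ) * Complex.I)))‖ ≤ η * N := by
  classical
  obtain ⟨F, P, hP⟩ := coreT H (H + h0) hη
  refine ⟨F, 2 * P, ?_⟩
  intro N T hT z z' hz0 hz0' hzp hzp' hzN hzN' hfar τ τ' hτ hτ' r hr hrH b α β hα hβ hfr x hx
  obtain ⟨f, hf, ψ, hψ, hag⟩ := Pool.Agent.H75.QT.quotient hz0 hz0' z.2 z'.2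
  have hFf : F < f := by
    by_contra hcc
    push Not at hcc
    exact hfar ⟨⟨f, ψ⟩, hcc, hag⟩
  have hττ : |τ - τ'| ≤ 2 * T := by
    obtain ⟨a1, a2⟩ := abs_le.1 hτ
    obtain ⟨b1, b2⟩ := abs_le.1 hτ'
    exact abs_le.2 ⟨by linarith, by linarith⟩
  have hqq : (P : ℝ) * (((z.1 * z'.1 : ℕ) : ℝ) * (1 : ℕ)) * (1 + |τ - τ'|) ≤ N := by
    have e1 : ((z.1 * z'.1 : ℕ) : ℝ) ≤ max ((z.1 : ℝ) ^ 2) ((z'.1 : ℝ) ^ 2) := by
      push_cast
      rcases le_total (z.1 : ℝ) z'.1 with h | h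
      · refine le_trans ?_ (le_max_right _ _)
        rw [sq]
        exact mul_le_mul_of_nonneg_right h (Nat.cast_nonneg _)
      · refine le_trans ?_ (le_max_left _ _)
        rw [sq]
        exact mul_le_mul_of_nonneg_left h (Nat.cast_nonneg _)
    have e2 : 1 + |τ - τ'| ≤ 2 * (1 + T) := by linarith
    rw [Nat.cast_one, mul_one]
    calc (P : ℝ) * ((z.1 * z'.1 : ℕ) : ℝ) * (1 + |τ - τ'|) ≤
          P * max ((z.1 : ℝ) ^ 2) ((z'.1 : ℝ) ^ 2) * (2 * (1 + T)) := by gcongr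
      _ = max (((2 * P : ℕ) : ℝ) * (z.1 : ℝ) ^ 2 * (1 + T))
            (((2 * P : ℕ) : ℝ) * (z'.1 : ℝ) ^ 2 * (1 + T)) := by
          rw [← max_mul_of_nonneg _ _ (by linarith), ← mul_max_of_nonneg _ _ (by positivity)]
          push_cast
          ring
      _ ≤ N := max_le hzN hzN'
  have h1 := hP (z.1 * z'.1) (Nat.mul_ne_zero hz0 hz0') f hf ψ hψ hFf 1 one_pos
    (Nat.coprime_one_left f) (τ - τ') N hqq (fun _ => 1) (fun _ => rfl) (fun _ => by simp) r hr hrH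
    b α (fun l => β l + h0) hα (fun l => by have := hβ l; omega) hfr x hx
  refine le_trans (le_of_eq ?_) h1
  congr 1
  refine sum_congr rfl fun t _ => ?_
  rw [one_mul, map_prod, ← prod_mul_distrib]
  refine prod_congr rfl fun l _ => ?_
  obtain ⟨n, hn⟩ : ∃ n : ℕ, n = α l * t + (β l + h0) := ⟨_, rfl⟩
  rw [← hn]
  have hn1 : 1 ≤ n := by omega
  have e1 : ∀ u : ℂ, (starRingEnd ℂ) (cj (b l) u) = cj (b l) ((starRingEnd ℂ) u) := by
    intro u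
    unfold cj
    cases b l <;> simp
  rw [e1, ← cj_mul']
  congr 1
  have hnz : (n : ℂ) ≠ 0 := by
    have : n ≠ 0 := by omega
    exact_mod_cast this
  have e2 : (starRingEnd ℂ) ((n : ℂ) ^ ((τ' : ℂ) * Complex.I)) =
      (n : ℂ) ^ (-((τ' : ℂ) * Complex.I)) := by
    have e5 := Complex.cpow_conj (n : ℂ) ((τ' : ℂ) * Complex.I) (by
      rw [Complex.natCast_arg]
      exact Real.pi_pos.ne)
    rw [Complex.conj_natCast] at e5
    rw [← e5, map_mul, Complex.conj_ofReal, Complex.conj_I, mul_neg]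
  have e3 : (n : ℂ) ^ (((τ - τ' : ℝ) : ℂ) * Complex.I) =
      (n : ℂ) ^ ((τ : ℂ) * Complex.I) * (n : ℂ) ^ (-((τ' : ℂ) * Complex.I)) := by
    rw [← Complex.cpow_add _ _ hnz]
    congr 1
    push_cast
    ring
  rw [map_mul, e2, e3]
  have e4 : z.2 (n : ZMod z.1) * (starRingEnd ℂ) (z'.2 (n : ZMod z'.1)) =
      if n.Coprime (z.1 * z'.1) then ψ (n : ZMod f) else 0 := by
    split_ifs with hnc
    · exact hag n hnc
    · rw [Nat.coprime_mul_iff_right, not_and_or] at hnc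
      rcases hnc with hn' | hn'
      · rw [MulChar.map_nonunit _ (fun h => hn' ((ZMod.isUnit_iff_coprime _ z.1).1 h)), zero_mul]
      · rw [MulChar.map_nonunit z'.2 (fun h => hn' ((ZMod.isUnit_iff_coprime _ z'.1).1 h)),
          map_zero, mul_zero]
  rw [← e4]
  ring

/-- every primitive character of large conductor, times `w(n) n ^ (i τ)` -/
theorem fixedT (k : ℕ) (h : Fin k → ℤ) (j : Fin k)
    (hne : ∀ i, i ≠ j → h i ≠ h j) {ε : ℝ} (hε : 0 < ε) :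
    ∃ P : ℕ, ∀ q : ℕ, P ≤ q → ∀ χ : DirichletCharacter ℂ q, χ.IsPrimitive →
      ∀ m : ℕ, 0 < m → m.Coprime q → ∀ w : ℕ → ℂ, (∀ n, w (n + m) = w n) → (∀ n, ‖w n‖ ≤ 1) →
      ∀ (τ : ℝ) (N : ℕ), P * ((q : ℝ) * m) * (1 + |τ|) ≤ N →
      ∀ G : Fin k → ArithmeticFunction ℂ, (∀ i n, ‖G i n‖ ≤ 1) →
      (∀ i, i ≠ j → (G i).IsMultiplicative) →
      (∀ n : ℕ, 0 < n → G j n = χ (n : ZMod q) * w n * (n : ℂ) ^ ((τ : ℂ) * Complex.I)) →
      ‖(1 / (N : ℂ)) * ∑ n ∈ Icc 1 N, ∏ i, G i ((n : ℤ) + h i).toNat‖ ≤ ε := by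
  classical
  rcases k with _ | k
  · exact j.elim0
  obtain ⟨H, δ0, N0, s, hδ0, hs, hfin⟩ := fin_core k h j hne ε hε
  obtain ⟨F, P, hP⟩ := coreT H (H + (h j + s).toNat) hδ0
  refine ⟨P + F + N0 + 1, fun q hPq χ hχ m hm hmq w hw hwb τ N hN G hG hGm hGj => ?_⟩
  have hq0 : q ≠ 0 := by omega
  have hqm : 1 ≤ q * m := Nat.mul_pos (Nat.pos_of_ne_zero hq0) hm
  have hqm' : (1 : ℝ) ≤ (q : ℝ) * m := by exact_mod_cast hqm
  have hτ0 := abs_nonneg τ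
  have hqτ : (1 : ℝ) ≤ ((q : ℝ) * m) * (1 + |τ|) := by nlinarith
  have hN0 : N0 ≤ N := by
    have e1 : (N0 : ℝ) ≤ N := by
      refine le_trans ?_ hN
      calc (N0 : ℝ) ≤ ((P + F + N0 + 1 : ℕ) : ℝ) := by exact_mod_cast (by omega)
        _ ≤ ((P + F + N0 + 1 : ℕ) : ℝ) * (((q : ℝ) * m) * (1 + |τ|)) :=
            le_mul_of_one_le_right (Nat.cast_nonneg _) hqτ
        _ = ((P + F + N0 + 1 : ℕ) : ℝ) * ((q : ℝ) * m) * (1 + |τ|) := by ring
    exact_mod_cast e1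
  have hPN : (P : ℝ) * ((q : ℝ) * m) * (1 + |τ|) ≤ N := by
    refine le_trans ?_ hN
    gcongr
    exact_mod_cast (by omega : P ≤ P + F + N0 + 1)
  refine hfin N hN0 G (univ.erase j) (by simp) hG (fun i hi => hGm i (ne_of_mem_erase hi)) ?_
  have h1 : (univ \ univ.erase j : Finset (Fin (k + 1))) = {j} := by
    ext i
    simp
  rw [h1]
  simp only [prod_singleton]
  obtain ⟨h0, hh0⟩ : ∃ h0 : ℕ, h0 = (h j + s).toNat := ⟨_, rfl⟩
  have h0pos : 0 < h0 := by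
    have := hs j
    omega
  rw [← hh0] at hP ⊢
  intro r hr hrH α β c hα hβ hfr x hx
  have hwm : ∀ n a, w (n + m * a) = w n := by
    intro n a
    induction a with
    | zero => rw [mul_zero, add_zero]
    | succ a ih => rw [mul_add, mul_one, ← add_assoc, hw, ih]
  have hb := hP q hq0 q dvd_rfl χ hχ (by omega) m hm hmq τ N hPN
    (fun t => ∏ l, cj (c l) (w (α l * t + (β l + h0)))) (fun t => by
      refine prod_congr rfl fun l _ => ?_
      congr 1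
      rw [show α l * (t + m) + (β l + h0) = α l * t + (β l + h0) + m * α l by ring, hwm])
    (fun t => by
      rw [norm_prod]
      refine prod_le_one (fun _ _ => norm_nonneg _) fun l _ => ?_
      rw [cj_norm]
      exact hwb _) r hr hrH c α (fun l => β l + h0) hα
    (fun l => ⟨by omega, by have := hβ l; omega⟩) hfr x hx
  refine le_trans (le_of_eq ?_) hb
  congr 1
  refine sum_congr rfl fun t _ => ?_
  rw [← prod_mul_distrib]
  refine prod_congr rfl fun l _ => ?_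
  show cj (c l) (G j (α l * t + β l + h0)) = _
  rw [add_assoc, hGj _ (by omega), ← cj_mul']
  congr 1
  have e1 : (if (α l * t + (β l + h0)).Coprime q then
      χ ((α l * t + (β l + h0) : ℕ) : ZMod q) else 0) =
      χ ((α l * t + (β l + h0) : ℕ) : ZMod q) := by
    split_ifs with hn
    · rfl
    · exact (MulChar.map_nonunit χ fun h => hn ((ZMod.isUnit_iff_coprime _ q).1 h)).symm
  rw [e1]
  ring

end Pool.H37.PP
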