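import Mathlib
import Pool.Agent.H37.PP.CoreT
import Pool.Agent.H33.QT.PrimT

/-!
# Primitive characters of conductor `q`, all `|τ| ≤ T`, `P q² (1 + T) ≤ N`
-/

set_option autoImplicit false

namespace Pool.H37.PP

open Finset

theorem primT (k : ℕ) (h : Fin k → ℤ) (j : Fin k) (hne : ∀ i, i ≠ j → h i ≠ h j)
    {ε : ℝ} (hε : 0 < ε) :
    ∃ K P : ℕ, ∀ N : ℕ, ∀ S : Finset (Fin k), j ∉ S →
      ∀ d : Fin k → ArithmeticFunction ℂ, (∀ i n, ‖d i n‖ ≤ 1) → ∀ T : ℝ, 0 ≤ T →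
      ∃ E : Finset (Σ q : ℕ, DirichletCharacter ℂ q), E.card ≤ K ∧ ∀ q : ℕ, q ≠ 0 →
      P * (q : ℝ) ^ 2 * (1 + T) ≤ N → ∀ χ : DirichletCharacter ℂ q, χ.IsPrimitive →
      ⟨q, χ⟩ ∉ E → ∀ τ : ℝ, |τ| ≤ T → ∀ G : Fin k → ArithmeticFunction ℂ, (∀ i n, ‖G i n‖ ≤ 1) →
      (∀ i ∈ S, (G i).IsMultiplicative) → (∀ i, i ∉ S → i ≠ j → G i = d i) →
      (∀ n : ℕ, 0 < n →
        G j n = d j n * (χ (n : ZMod q) * (n : ℂ) ^ ((τ : ℂ) * Complex.I))) →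
      ‖(1 / (N : ℂ)) * ∑ n ∈ Icc 1 N, ∏ i, G i ((n : ℤ) + h i).toNat‖ ≤ ε :=
  Pool.Agent.H33.QT.primT (fun H h0 _ h1 hη => pairT H h0 h1 hη) k h j hne hε

end Pool.H37.PP
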