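import Mathlib
import Pool.Agent.H37.PP.Core

/-!
# One primitive character of large conductor

`fixedAll`: every primitive character of conductor `q ≥ P`, times a function of period `m` prime to `q`,
all multiplicative cofactors, `N ≥ P q m`. No exceptions.
-/

set_option autoImplicit false

namespace Pool.H37.PP

open Finset Pool.H2.EL Pool.Agent.H18.QT

theorem fixedAll (k : ℕ) (h : Fin k → ℤ) (j : Fin k)
    (hne : ∀ i, i ≠ j → h i ≠ h j) {ε : ℝ} (hε : 0 < ε) :
    ∃ P : ℕ, ∀ q : ℕ, P ≤ q → ∀ χ : DirichletCharacter ℂ q, χ.IsPrimitive →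
      ∀ m : ℕ, 0 < m → m.Coprime q → ∀ w : ℕ → ℂ, (∀ n, w (n + m) = w n) → (∀ n, ‖w n‖ ≤ 1) →
      ∀ N : ℕ, P * (q * m) ≤ N →
      ∀ G : Fin k → ArithmeticFunction ℂ, (∀ i n, ‖G i n‖ ≤ 1) →
      (∀ i, i ≠ j → (G i).IsMultiplicative) → (∀ n : ℕ, 0 < n → G j n = χ (n : ZMod q) * w n) →
      ‖(1 / (N : ℂ)) * ∑ n ∈ Icc 1 N, ∏ i, G i ((n : ℤ) + h i).toNat‖ ≤ ε := by
  classical
  rcases k with _ | k
  · exact j.elim0
  obtain ⟨H, δ0, N0, s, hδ0, hs, hfin⟩ := fin_core k h j hne ε hε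
  obtain ⟨F, P, hP⟩ := core H (H + (h j + s).toNat) hδ0
  refine ⟨P + F + N0 + 1, fun q hPq χ hχ m hm hmq w hw hwb N hN G hG hGm hGj => ?_⟩
  have hq0 : q ≠ 0 := by omega
  have hqm : 1 ≤ q * m := Nat.mul_pos (Nat.pos_of_ne_zero hq0) hm
  have hN0 : N0 ≤ N := by nlinarith
  refine hfin N hN0 G (univ.erase j) (by simp) hG (fun i hi => hGm i (ne_of_mem_erase hi)) ?_
  have h1 : (univ \ univ.erase j : Finset (Fin (k + 1))) = {j} := by
    ext i
    simp
  rw [h1]
  simp only [prod_singleton]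
  obtain ⟨h0, hh0⟩ : ∃ h0 : ℕ, h0 = (h j + s).toNat := ⟨_, rfl⟩
  have h0pos : 0 < h0 := by
    have := hs j
    omega
  rw [← hh0] at hP ⊢
  intro r hr hrH α β c hα hβ hfr x hx
  have hwm : ∀ n a, w (n + m * a) = w n := by
    intro n a
    induction a with
    | zero => rw [mul_zero, add_zero]
    | succ a ih => rw [mul_add, mul_one, ← add_assoc, hw, ih]
  have hb := hP q hq0 q dvd_rfl χ hχ (by omega) m hm hmq N (by nlinarith)
    (fun t => ∏ l, cj (c l) (w (α l * t + (β l + h0)))) (fun t => by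
      refine prod_congr rfl fun l _ => ?_
      congr 1
      rw [show α l * (t + m) + (β l + h0) = α l * t + (β l + h0) + m * α l by ring, hwm])
    (fun t => by
      rw [norm_prod]
      refine prod_le_one (fun _ _ => norm_nonneg _) fun l _ => ?_
      rw [cj_norm]
      exact hwb _) r hr hrH c α (fun l => β l + h0) hα (fun l => by have := hβ l; omega) hfr x hx
  refine le_trans (le_of_eq ?_) hb
  congr 1
  refine sum_congr rfl fun t _ => ?_
  rw [← prod_mul_distrib]
  refine prod_congr rfl fun l _ => ?_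
  show cj (c l) (G j (α l * t + β l + h0)) = _
  rw [add_assoc, hGj _ (by omega), cj_mul', mul_comm]
  congr 2
  split_ifs with hn
  · rfl
  · exact MulChar.map_nonunit χ fun h => hn ((ZMod.isUnit_iff_coprime _ q).1 h)

end Pool.H37.PP
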